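import Pool.Agent.T9h53.EQ.Fin
import Pool.Agent.T9h53.SG.HLK
import Pool.Agent.T9h53.AP.DirU
import Pool.Agent.Y773.HK.Per

/-! # The characters have finite order -/

set_option autoImplicit false

open Complex Filter Topology Set NumberField

namespace Pool.Agent.T9h53.EQ

open Pool.Agent.T9h53.SG Pool.Agent.T9h53.AP
open Pool.Agent.T9h27.D
open Pool.Agent.T9h27.K (nK ns_K)

theorem exists_pow_unif {K : Type} [Field K] [NumberField K] {𝔪 : Ideal (𝓞 K)} (h𝔪 : 𝔪 ≠ ⊥) :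
    ∃ k : ℕ, 0 < k ∧ ∀ 𝔞 : Ideal (𝓞 K), 𝔞 ≠ ⊥ → IsCoprime 𝔞 𝔪 →
      ∃ x : 𝓞 K, x ≠ 0 ∧ x - 1 ∈ 𝔪 ∧ 𝔞 ^ k = Ideal.span {x} := by
  classical
  have : Finite (𝓞 K ⧸ 𝔪) := Ideal.finiteQuotientOfFreeOfNeBot 𝔪 h𝔪
  have hfin : Finite (𝓞 K ⧸ 𝔪)ˣ := inferInstance
  refine ⟨Fintype.card (ClassGroup (𝓞 K)) * Nat.card (𝓞 K ⧸ 𝔪)ˣ,
    Nat.mul_pos Fintype.card_pos Nat.card_pos, ?_⟩
  intro 𝔞 h𝔞0 h
  have hmem := mem_nonZeroDivisors_of_ne_zero (M₀ := Ideal (𝓞 K)) h𝔞0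
  have h1 : (ClassGroup.mk0 ⟨𝔞, hmem⟩) ^ Fintype.card (ClassGroup (𝓞 K)) = 1 := pow_card_eq_one
  rw [← map_pow] at h1
  have h2 := (ClassGroup.mk0_eq_one_iff (R := 𝓞 K)
    (SetLike.coe_mem ((⟨𝔞, hmem⟩ : nonZeroDivisors (Ideal (𝓞 K))) ^
      Fintype.card (ClassGroup (𝓞 K))))).mp h1
  obtain ⟨a, ha⟩ := h2
  have ha' : 𝔞 ^ Fintype.card (ClassGroup (𝓞 K)) = Ideal.span {a} := ha
  have hcop : IsCoprime (Ideal.span {a}) 𝔪 := by
    rw [← ha']
    exact IsCoprime.pow_left h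
  have hu : IsUnit (Ideal.Quotient.mk 𝔪 a) := by
    obtain ⟨i, hi, j, hj, hij⟩ := (Ideal.isCoprime_iff_exists.mp hcop)
    obtain ⟨z, rfl⟩ := Ideal.mem_span_singleton'.mp hi
    have h3 : Ideal.Quotient.mk 𝔪 z * Ideal.Quotient.mk 𝔪 a = 1 := by
      rw [← map_mul, ← map_one (Ideal.Quotient.mk 𝔪), ← hij]
      rw [map_add, Ideal.Quotient.eq_zero_iff_mem.mpr hj, add_zero]
    exact IsUnit.of_mul_eq_one_right _ h3
  obtain ⟨u, hu⟩ := hu
  have h4 : u ^ Nat.card (𝓞 K ⧸ 𝔪)ˣ = 1 := pow_card_eq_one'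
  refine ⟨a ^ Nat.card (𝓞 K ⧸ 𝔪)ˣ, ?_, ?_, ?_⟩
  · have ha0 : a ≠ 0 := by
      rintro rfl
      rw [Ideal.span_singleton_eq_bot.mpr rfl] at ha'
      exact pow_ne_zero _ h𝔞0 ha'
    exact pow_ne_zero _ ha0
  · rw [← Ideal.Quotient.eq_zero_iff_mem, map_sub, map_one, map_pow, ← hu,
      ← Units.val_pow_eq_pow_val, h4, Units.val_one, sub_self]
  · rw [pow_mul, ha', Ideal.span_singleton_pow]

theorem fo_K (K : Type) [Field K] [NumberField K] (𝔣 : Ideal (𝓞 K)) (ψ : Ideal (𝓞 K) →*₀ ℂ)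
    (h : Pool.Agent.Y773.G.IsPrimChar K 𝔣 ψ) : FO (nK K) ψ := by
  constructor
  · obtain ⟨k, hk, hx⟩ := exists_pow_unif h.ne_bot
    refine ⟨k * 2, by omega, ?_⟩
    intro 𝔞 ha
    have h0 : 𝔞 ≠ ⊥ := by
      intro h1
      apply ha
      rw [h1]
      exact map_zero ψ
    obtain ⟨x, hx0, hx1, hx2⟩ := hx 𝔞 h0 ((h.supp 𝔞 h0).mp ha)
    have h2 : ψ (Ideal.span {x ^ 2}) = 1 := by
      refine h.ray _ (pow_ne_zero _ hx0) ?_ ?_
      · have : x ^ 2 - 1 = (x + 1) * (x - 1) := by ring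
        rw [this]
        exact Ideal.mul_mem_left _ _ hx1
      · intro τ
        have h3 : τ (x : K) ≠ 0 := by
          intro h4
          apply hx0
          have := (map_eq_zero τ).mp h4
          exact_mod_cast this
        rw [show ((x ^ 2 : 𝓞 K) : K) = (x : K) ^ 2 by push_cast; rfl, map_pow]
        positivity
    rw [pow_mul, ← map_pow, ← map_pow, hx2, Ideal.span_singleton_pow]
    exact h2
  · refine ⟨Ideal.absNorm 𝔣, ?_⟩
    intro p hp hpX
    have hnt : Ideal.span {(p : 𝓞 K)} ≠ ⊤ := by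
      intro h1
      have h2 := congrArg Ideal.absNorm h1
      rw [Ideal.absNorm_top, Ideal.absNorm_span_natCast, RingOfIntegers.rank] at h2
      have h4 : 0 < Module.finrank ℚ K := Module.finrank_pos
      have h5 := Nat.one_lt_pow h4.ne' hp.one_lt
      omega
    obtain ⟨P, hP, hle⟩ := Ideal.exists_le_maximal _ hnt
    have hpP : (p : 𝓞 K) ∈ P := hle (Ideal.mem_span_singleton_self _)
    have hP0 : P ≠ ⊥ := by
      intro h1
      rw [h1, Ideal.mem_bot] at hpP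
      exact hp.ne_zero (by exact_mod_cast hpP)
    have hPp : Prime P := Ideal.prime_of_isPrime hP0 hP.isPrime
    have hcop : ∀ m : ℕ, (m : 𝓞 K) ∈ P → ¬ m.Coprime p := by
      intro m hm hc
      have h1 : IsCoprime (m : ℤ) (p : ℤ) := Nat.isCoprime_iff_coprime.mpr hc
      obtain ⟨a, b, hab⟩ := h1
      apply hP.ne_top
      rw [Ideal.eq_top_iff_one]
      have h2 : ((a : 𝓞 K)) * (m : 𝓞 K) + (b : 𝓞 K) * (p : 𝓞 K) = 1 := by
        have := congrArg (Int.cast : ℤ → 𝓞 K) hab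
        push_cast at this
        exact this
      rw [← h2]
      exact P.add_mem (P.mul_mem_left _ hm) (P.mul_mem_left _ hpP)
    refine ⟨P, hPp, ?_, ?_⟩
    · have h1 := hcop _ (Ideal.absNorm_mem P)
      rw [Nat.coprime_comm, hp.coprime_iff_not_dvd, not_not] at h1
      exact h1
    · rw [h.supp P hP0]
      by_contra hc
      have h1 : 𝔣 ≤ P := by
        by_contra hcon
        apply hc
        rw [Ideal.isCoprime_iff_sup_eq]
        by_contra h2
        apply hcon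
        rw [hP.eq_of_le h2 le_sup_left]
        exact le_sup_right
      have h2 := hcop _ (h1 (Ideal.absNorm_mem 𝔣))
      rw [Nat.coprime_comm, hp.coprime_iff_not_dvd, not_not] at h2
      have h3 : 0 < Ideal.absNorm 𝔣 := Nat.pos_of_ne_zero (by
        rw [Ne, Ideal.absNorm_eq_zero_iff]
        exact h.ne_bot)
      have := Nat.le_of_dvd h3 h2
      omega

theorem fo_dir {q : ℕ} [NeZero q] (χ : DirichletCharacter ℂ q) : FO NId (psi χ) := by
  constructor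
  · refine ⟨Fintype.card (ZMod q)ˣ, Fintype.card_ne_zero, ?_⟩
    intro a ha
    have ha0 : a ≠ 0 := by
      intro h
      apply ha
      rw [h, map_zero]
    rw [psi_of ha0] at ha ⊢
    have hu : IsUnit ((a : ZMod q)) := by
      by_contra hc
      exact ha (MulChar.map_nonunit χ hc)
    obtain ⟨u, hu⟩ := hu
    rw [← hu, ← map_pow, ← Units.val_pow_eq_pow_val, pow_card_eq_one, Units.val_one, map_one]
  · refine ⟨q, fun p hp hpq => ⟨p, hp.prime, dvd_rfl, ?_⟩⟩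
    rw [psi_of hp.ne_zero]
    have hc : p.Coprime q := by
      rw [hp.coprime_iff_not_dvd]
      intro h
      have := Nat.le_of_dvd (Nat.pos_of_ne_zero (NeZero.ne q)) h
      omega
    have hu : IsUnit ((p : ZMod q)) := (ZMod.isUnit_iff_coprime p q).mpr hc
    exact (hu.map χ).ne_zero

end Pool.Agent.T9h53.EQ
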