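import Pool.Agent.T9h53.EQ.Term
import Pool.Agent.T9h53.SZ.Core3

/-! # The window inequality for a quotient of degree zero -/

set_option autoImplicit false

open Complex Filter Topology Set MeasureTheory

namespace Pool.Agent.T9h53.EQ

open Pool.Agent.T9h53.SZ

variable {ι : Type} [Countable ι]

theorem right_eq {c : ι → ℂ} {ν : ι → ℝ} {S0 lam b Y t κ : ℝ} (P : Finset ι)
    (hsum : Summable fun p => ‖c p‖ * Real.exp (-ν p))
    (hS0 : ∑' p, ‖c p‖ * Real.exp (-ν p) ≤ S0)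
    (hb : 1 ≤ b) (hY : b ≤ Y) (hκ : 0 ≤ κ) (hP : ∀ p ∈ P, ν p = lam)
    (hgap : ∀ p ∉ P, c p ≠ 0 → κ ≤ |lam - ν p|)
    (F : ℂ → ℂ)
    (hF : ∀ v : ℝ, -Y ≤ v → v ≤ Y → F ⟨1, t + v⟩ =
      ∑' p, c p * cexp (((lam - ν p : ℝ) : ℂ) * ⟨1, t + v⟩)) :
    ‖∑ p ∈ P, c p‖ * (2 * b * Real.exp (-2) - 2 * ed b Y) -
      S0 * (Real.exp lam * ta b Y κ) ≤ ‖VW F b⁻¹ Y t 1‖ := by
  classical
  have hb0 : 0 < b := by linarith
  have hY0 : 0 ≤ Y := by linarith
  have hA : Amp (fun _ => (1 : ℂ)) 1 0 b Y t :=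
    ⟨fun z _ _ => differentiableAt_const _, fun σ v _ _ => by simp⟩
  have hsum' : Summable fun p => ‖c p‖ * Real.exp (1 * (lam - ν p)) := by
    have := hsum.mul_right (Real.exp lam)
    refine this.congr fun p => ?_
    rw [mul_assoc, ← Real.exp_add]
    congr 2
    ring
  have h1 := VW_hasSum c (fun p => lam - ν p) hA hb0 hY0 (x := 1)
    (by rw [abs_one]; linarith) hsum'
  have h2 : VW (fun z => 1 * ∑' p, c p * cexp (((lam - ν p : ℝ) : ℂ) * z)) b⁻¹ Y t 1 =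
      VW F b⁻¹ Y t 1 := by
    apply VW_congr hY0
    intro v hv1 hv2
    rw [hF v hv1 hv2, one_mul]
  rw [h2] at h1
  set f : ι → ℂ := fun p => c p * VW (tm (fun _ => 1) (lam - ν p)) b⁻¹ Y t 1 with hf
  have h3 : HasSum (fun p => if p ∈ P then f p else 0) (∑ p ∈ P, f p) := by
    have : HasSum (fun p => if p ∈ P then f p else 0) (∑ p ∈ P, (if p ∈ P then f p else 0)) :=
      hasSum_sum_of_ne_finset_zero (fun p hp => if_neg hp)
    have e1 : ∑ p ∈ P, (if p ∈ P then f p else 0) = ∑ p ∈ P, f p :=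
      Finset.sum_congr rfl fun p hp => if_pos hp
    rwa [e1] at this
  have h4 := h1.sub h3
  have h5 : HasSum (fun p => (‖c p‖ * Real.exp (-ν p)) * (Real.exp lam * ta b Y κ))
      ((∑' p, ‖c p‖ * Real.exp (-ν p)) * (Real.exp lam * ta b Y κ)) :=
    hsum.hasSum.mul_right _
  have htau : 0 ≤ ta b Y κ := by
    have := ed_pos b Y
    unfold ta
    positivity
  have h6 : ∀ p, ‖f p - (if p ∈ P then f p else 0)‖ ≤
      (‖c p‖ * Real.exp (-ν p)) * (Real.exp lam * ta b Y κ) := by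
    intro p
    by_cases hp : p ∈ P
    · rw [if_pos hp, sub_self, norm_zero]
      positivity
    · rw [if_neg hp, sub_zero]
      by_cases hc : c p = 0
      · simp [hf, hc]
      · have hg := hgap p hp hc
        have e1 := far_tm hA (lam - ν p) zero_le_one hb hY0 (s₀ := 1)
          (κ := κ) (by rw [abs_one]) hκ (by rw [sub_zero]; exact hg)
        rw [hf]
        simp only [norm_mul]
        have e2 : 1 * Real.exp (1 * (lam - ν p - 0)) = Real.exp (-ν p) * Real.exp lam := by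
          rw [← Real.exp_add, one_mul]
          congr 1
          ring
        rw [e2] at e1
        calc ‖c p‖ * ‖VW (tm (fun _ => 1) (lam - ν p)) b⁻¹ Y t 1‖ ≤
            ‖c p‖ * (Real.exp (-ν p) * Real.exp lam * ta b Y κ) := by
              gcongr
          _ = _ := by ring
  have h7 := HasSum.norm_le_of_bounded h4 h5 h6
  have h8 : (∑' p, ‖c p‖ * Real.exp (-ν p)) * (Real.exp lam * ta b Y κ) ≤
      S0 * (Real.exp lam * ta b Y κ) := by
    apply mul_le_mul_of_nonneg_right hS0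
    positivity
  have h9 : ‖∑ p ∈ P, c p‖ * (2 * b * Real.exp (-2) - 2 * ed b Y) ≤ ‖∑ p ∈ P, f p‖ := by
    have e1 : ∑ p ∈ P, f p = (∑ p ∈ P, c p) * VW (tm (fun _ => 1) 0) b⁻¹ Y t 1 := by
      rw [Finset.sum_mul]
      refine Finset.sum_congr rfl fun p hp => ?_
      rw [hf]
      simp only
      rw [hP p hp, sub_self]
    rw [e1, norm_mul]
    exact mul_le_mul_of_nonneg_left (main_tm (t := t) hb hY) (norm_nonneg _)
  have h10 : ‖∑ p ∈ P, f p‖ ≤ ‖VW F b⁻¹ Y t 1‖ + ‖VW F b⁻¹ Y t 1 - ∑ p ∈ P, f p‖ := by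
    calc ‖∑ p ∈ P, f p‖ = ‖VW F b⁻¹ Y t 1 - (VW F b⁻¹ Y t 1 - ∑ p ∈ P, f p)‖ := by
          rw [sub_sub_cancel]
      _ ≤ _ := norm_sub_le _ _
  linarith

theorem left_eq {c : ι → ℂ} {ν : ι → ℝ} {S0 lam b Y t κ C E : ℝ} {G : ℂ → ℂ}
    (hsum : Summable fun p => ‖c p‖ * Real.exp (-ν p))
    (hS0 : ∑' p, ‖c p‖ * Real.exp (-ν p) ≤ S0)
    (hb : 1 ≤ b) (hY : 0 ≤ Y) (hC : 0 ≤ C) (hκ : 0 ≤ κ) (hA : Amp G C E b Y t)
    (hS1 : ∀ p, c p ≠ 0 → κ ≤ ν p + lam - E)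
    (F : ℂ → ℂ)
    (hF : ∀ v : ℝ, -Y ≤ v → v ≤ Y → F ⟨-1, t + v⟩ =
      G ⟨-1, t + v⟩ * ∑' p, (starRingEnd ℂ) (c p) *
        cexp (((ν p + lam : ℝ) : ℂ) * ⟨-1, t + v⟩)) :
    ‖VW F b⁻¹ Y t (-1)‖ ≤ S0 * (C * Real.exp E * Real.exp (-lam) * ta b Y κ) := by
  classical
  have hb0 : 0 < b := by linarith
  have hnorm : ∀ p, ‖(starRingEnd ℂ) (c p)‖ = ‖c p‖ := fun p => Complex.norm_conj _
  have hsum' : Summable fun p => ‖(starRingEnd ℂ) (c p)‖ *
      Real.exp (-1 * (ν p + lam)) := by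
    have := hsum.mul_right (Real.exp (-lam))
    refine this.congr fun p => ?_
    rw [hnorm, mul_assoc, ← Real.exp_add]
    congr 2
    ring
  have h1 := VW_hasSum (fun p => (starRingEnd ℂ) (c p)) (fun p => ν p + lam) hA hb0 hY (x := -1)
    (by rw [abs_neg, abs_one]; linarith) hsum'
  have h2 : VW (fun z => G z * ∑' p, (starRingEnd ℂ) (c p) *
      cexp (((ν p + lam : ℝ) : ℂ) * z)) b⁻¹ Y t (-1) = VW F b⁻¹ Y t (-1) := by
    apply VW_congr hY
    intro v hv1 hv2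
    rw [hF v hv1 hv2]
  rw [h2] at h1
  have htau : 0 ≤ ta b Y κ := by
    have := ed_pos b Y
    unfold ta
    positivity
  have h5 : HasSum (fun p => (‖c p‖ * Real.exp (-ν p)) *
      (C * Real.exp E * Real.exp (-lam) * ta b Y κ))
      ((∑' p, ‖c p‖ * Real.exp (-ν p)) * (C * Real.exp E * Real.exp (-lam) * ta b Y κ)) :=
    hsum.hasSum.mul_right _
  have e2 : ∀ p, C * Real.exp (-1 * (ν p + lam - E)) =
      C * Real.exp E * Real.exp (-lam) * Real.exp (-ν p) := by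
    intro p
    rw [mul_assoc, mul_assoc, ← Real.exp_add, ← Real.exp_add]
    congr 2
    ring
  have h6 : ∀ p, ‖(starRingEnd ℂ) (c p) * VW (tm G (ν p + lam)) b⁻¹ Y t (-1)‖ ≤
      (‖c p‖ * Real.exp (-ν p)) * (C * Real.exp E * Real.exp (-lam) * ta b Y κ) := by
    intro p
    rw [norm_mul, hnorm]
    rcases eq_or_ne (c p) 0 with hc | hc
    · rw [hc, norm_zero, zero_mul, zero_mul, zero_mul]
    have e1 := far_tm hA (ν p + lam) hC hb hY (s₀ := -1)
      (κ := κ) (by rw [abs_neg, abs_one]) hκ ((hS1 p hc).trans (le_abs_self _))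
    rw [e2] at e1
    calc ‖c p‖ * ‖VW (tm G (ν p + lam)) b⁻¹ Y t (-1)‖ ≤
        ‖c p‖ * (C * Real.exp E * Real.exp (-lam) * Real.exp (-ν p) * ta b Y κ) := by
          gcongr
      _ = _ := by ring
  have h7 := HasSum.norm_le_of_bounded h1 h5 h6
  refine h7.trans ?_
  apply mul_le_mul_of_nonneg_right hS0
  positivity

/-- **the window inequality** -/
theorem core_eq {b Y t : ℝ} (P : Finset ι) {c : ι → ℂ} {ν : ι → ℝ} {G D : ℂ → ℂ}
    {C E lam κ S0 M : ℝ} (hb : 1 ≤ b) (hY : b ≤ Y) (hC : 0 ≤ C) (hκ : 0 ≤ κ) (hM : 0 ≤ M)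
    (hsum : Summable fun p => ‖c p‖ * Real.exp (-ν p))
    (hS0 : ∑' p, ‖c p‖ * Real.exp (-ν p) ≤ S0)
    (hP : ∀ p ∈ P, ν p = lam)
    (hgap : ∀ p ∉ P, c p ≠ 0 → κ ≤ |lam - ν p|)
    (hS1 : ∀ p, c p ≠ 0 → κ ≤ ν p + lam - E)
    (hA : Amp G C E b Y t)
    (hD : ∀ z : ℂ, |z.im - t| ≤ Y → DifferentiableAt ℂ D z)
    (hfe : ∀ z : ℂ, |z.im - t| ≤ Y → D z = G z * (starRingEnd ℂ) (D (-(starRingEnd ℂ) z)))
    (hser : ∀ v : ℝ, |v| ≤ Y → D ⟨1, t + v⟩ =
      ∑' p, c p * cexp (-(ν p : ℂ) * ⟨1, t + v⟩))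
    (hbox : ∀ x τ : ℝ, 0 ≤ x → x ≤ 1 → |τ - t| ≤ Y → ‖D ⟨x, τ⟩‖ ≤ M) :
    ‖∑ p ∈ P, c p‖ * (2 * b * Real.exp (-2) - 2 * ed b Y) ≤
      S0 * (Real.exp lam * ta b Y κ) + S0 * (C * Real.exp E * Real.exp (-lam) * ta b Y κ) +
      4 * ((1 + C * Real.exp |E|) * M * Real.exp |lam| * ed b Y) := by
  have hb0 : 0 < b := by linarith
  have hY0 : 0 ≤ Y := by linarith
  have hexpn : ∀ c v : ℝ, ‖cexp (((lam : ℝ) : ℂ) * (⟨c, v⟩ : ℂ))‖ = Real.exp (c * lam) :=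
    fun c v => exp_norm _ _ _
  set F : ℂ → ℂ := fun z => D z * cexp (((lam : ℝ) : ℂ) * z) with hF
  have hright := right_eq (t := t) P hsum hS0 hb hY hκ hP hgap F (by
    intro v hv1 hv2
    rw [hF]
    simp only
    rw [hser v (abs_le.mpr ⟨hv1, hv2⟩), ← tsum_mul_right]
    refine tsum_congr fun p => ?_
    rw [mul_assoc, ← Complex.exp_add]
    congr 2
    push_cast
    ring)
  have hleft := left_eq (t := t) (lam := lam) hsum hS0 hb hY0 hC hκ hA hS1 F (by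
    intro v hv1 hv2
    have hv : |v| ≤ Y := abs_le.mpr ⟨hv1, hv2⟩
    have e2 : -(starRingEnd ℂ) (⟨-1, t + v⟩ : ℂ) = ⟨1, t + v⟩ := by
      apply Complex.ext <;> simp
    rw [hF]
    simp only
    rw [hfe ⟨-1, t + v⟩ (by simpa using hv), e2, hser v hv, mul_assoc, conj_tsum, ← tsum_mul_right]
    congr 1
    refine tsum_congr fun p => ?_
    rw [map_mul, mul_assoc, ← Complex.exp_conj, ← Complex.exp_add]
    congr 2
    simp only [map_mul, map_neg, conj_ofReal]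
    have e3 : (starRingEnd ℂ) (⟨1, t + v⟩ : ℂ) = -⟨-1, t + v⟩ := by
      apply Complex.ext <;> simp
    rw [e3]
    push_cast
    ring)
  set B : ℝ := (1 + C * Real.exp |E|) * M * Real.exp |lam| with hB
  have hmulabs : ∀ c y : ℝ, |c| ≤ 1 → Real.exp (c * y) ≤ Real.exp |y| := by
    intro c y hc
    apply Real.exp_le_exp.mpr
    calc c * y ≤ |c * y| := le_abs_self _
      _ = |c| * |y| := abs_mul _ _
      _ ≤ 1 * |y| := mul_le_mul_of_nonneg_right hc (abs_nonneg _)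
      _ = |y| := one_mul _
  have hCE : 0 ≤ C * Real.exp |E| := by positivity
  have hhor : ∀ τ : ℝ, |τ - t| ≤ Y → ∀ c : ℝ, -1 ≤ c → c ≤ 1 → ‖F ⟨c, τ⟩‖ ≤ B := by
    intro τ hτt c hc1 hc2
    have hcabs : |c| ≤ 1 := abs_le.mpr ⟨hc1, hc2⟩
    rw [hF]
    simp only
    rw [norm_mul, hexpn]
    have e2 := hmulabs c lam hcabs
    rcases le_or_gt 0 c with hc | hc
    · have e1 := hbox c τ hc hc2 hτt
      calc ‖D ⟨c, τ⟩‖ * Real.exp (c * lam) ≤ M * Real.exp |lam| := by gcongr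
        _ = 1 * M * Real.exp |lam| := by ring
        _ ≤ _ := by
          rw [hB]
          gcongr
          linarith
    · have e4 : -(starRingEnd ℂ) (⟨c, τ⟩ : ℂ) = ⟨-c, τ⟩ := by
        apply Complex.ext <;> simp
      have e1 := hbox (-c) τ (by linarith) (by linarith) hτt
      have e5 : ‖G ⟨c, τ⟩‖ ≤ C * Real.exp |E| := by
        have e6 := hA.bd c (τ - t) (hcabs.trans hb) hτt
        rw [add_sub_cancel] at e6
        refine e6.trans ?_
        have := hmulabs (-c) E (by rwa [abs_neg])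
        rw [neg_mul] at this
        exact mul_le_mul_of_nonneg_left this hC
      rw [hfe _ (by simpa using hτt), e4, norm_mul, Complex.norm_conj]
      calc ‖G ⟨c, τ⟩‖ * ‖D ⟨-c, τ⟩‖ * Real.exp (c * lam) ≤
          (C * Real.exp |E|) * M * Real.exp |lam| := by gcongr
        _ ≤ _ := by
            rw [hB]
            gcongr
            linarith
  have hB0 : 0 ≤ B := by positivity
  have hshift : ‖VW F b⁻¹ Y t 1 - VW F b⁻¹ Y t (-1)‖ ≤ 2 * (B * ed b Y * (1 - -1)) := by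
    apply VW_shift hY0 (by norm_num) (sc hb0 (by rw [abs_neg, abs_one]; exact hb))
      (sc hb0 (by rw [abs_one]; exact hb)) (inv_pos.mpr hb0).le
    · intro z hz1 hz2 hz3 hz4
      rw [hF]
      exact (hD z (abs_le.mpr ⟨by linarith, by linarith⟩)).mul (by fun_prop)
    · intro c hc1 hc2
      exact hhor _ (by rw [add_sub_cancel_left, abs_neg, abs_of_nonneg hY0]) c hc1 hc2
    · intro c hc1 hc2
      exact hhor _ (by rw [add_sub_cancel_left, abs_of_nonneg hY0]) c hc1 hc2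
  have htri : ‖VW F b⁻¹ Y t 1‖ ≤ ‖VW F b⁻¹ Y t (-1)‖ + ‖VW F b⁻¹ Y t 1 - VW F b⁻¹ Y t (-1)‖ := by
    calc ‖VW F b⁻¹ Y t 1‖ = ‖VW F b⁻¹ Y t (-1) + (VW F b⁻¹ Y t 1 - VW F b⁻¹ Y t (-1))‖ := by
          rw [add_sub_cancel]
      _ ≤ _ := norm_add_le _ _
  have h20 : 2 * (B * ed b Y * (1 - -1)) = 4 * (B * ed b Y) := by ring
  rw [h20] at hshift
  linarith

end Pool.Agent.T9h53.EQ
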