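import Pool.Agent.T9h53.EQ.Ker

/-! # The contribution of one term to the doubly exponential window -/

set_option autoImplicit false

open Complex Filter Topology Set MeasureTheory

namespace Pool.Agent.T9h53.EQ

open Pool.Agent.T9h53.SZ

/-- the kernel at the edge -/
noncomputable def ed (b Y : ℝ) : ℝ := Real.exp (-(Real.cosh (b⁻¹ * Y) / 2))

lemma ed_pos (b Y : ℝ) : 0 < ed b Y := Real.exp_pos _

lemma sc {b c : ℝ} (hb : 0 < b) (hc : |c| ≤ b) : |b⁻¹ * c| ≤ 1 := by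
  rw [abs_mul, abs_of_pos (inv_pos.mpr hb), inv_mul_le_iff₀ hb, mul_one]
  exact hc

/-- shifting one term between two lines -/
lemma shift_tm {A : ℂ → ℂ} {C E b Y t : ℝ} (hA : Amp A C E b Y t) (ν : ℝ) (hC : 0 ≤ C)
    (hb : 0 < b) (hY : 0 ≤ Y) {c₁ c₂ B : ℝ} (h1 : -b ≤ c₁) (h2 : c₁ ≤ c₂) (h3 : c₂ ≤ b)
    (hB : ∀ c : ℝ, c₁ ≤ c → c ≤ c₂ → Real.exp (c * (ν - E)) ≤ B) :
    ‖VW (tm A ν) b⁻¹ Y t c₂ - VW (tm A ν) b⁻¹ Y t c₁‖ ≤ 2 * (C * B * ed b Y * (c₂ - c₁)) := by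
  have hc : ∀ c : ℝ, c₁ ≤ c → c ≤ c₂ → |c| ≤ b := fun c a b => abs_le.mpr ⟨by linarith, by linarith⟩
  apply VW_shift hY h2 (sc hb (hc _ le_rfl h2)) (sc hb (hc _ h2 le_rfl)) (inv_pos.mpr hb).le
  · intro z a b d e
    exact hA.tm_diff ν (hc _ a b) (abs_le.mpr ⟨by linarith, by linarith⟩)
  · intro c k1 k2
    have e1 := hA.tm_le (σ := c) (v := -Y) ν (hc c k1 k2) (by rw [abs_neg, abs_of_nonneg hY])
    exact e1.trans (mul_le_mul_of_nonneg_left (hB c k1 k2) hC)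
  · intro c k1 k2
    have e1 := hA.tm_le (σ := c) (v := Y) ν (hc c k1 k2) (by rw [abs_of_nonneg hY])
    exact e1.trans (mul_le_mul_of_nonneg_left (hB c k1 k2) hC)

lemma line_tm {A : ℂ → ℂ} {C E b Y t : ℝ} (hA : Amp A C E b Y t) (ν : ℝ) (hC : 0 ≤ C)
    (hb : 0 < b) (hY : 0 ≤ Y) {c : ℝ} (hc : |c| ≤ b) :
    ‖VW (tm A ν) b⁻¹ Y t c‖ ≤ C * Real.exp (c * (ν - E)) * (6 * b) := by
  have h := VW_le (F := tm A ν) (t := t) (inv_pos.mpr hb) hY (sc hb hc)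
    (B := C * Real.exp (c * (ν - E))) (by positivity)
    (fun v h1 h2 => hA.tm_le ν hc (abs_le.mpr ⟨h1, h2⟩))
  rwa [div_inv_eq_mul] at h

/-- the error -/
noncomputable def ta (b Y κ : ℝ) : ℝ := 6 * b * Real.exp (-((b - 1) * κ)) + 4 * b * ed b Y

/-- **far terms** -/
theorem far_tm {A : ℂ → ℂ} {C E b Y t : ℝ} (hA : Amp A C E b Y t) (ν : ℝ) (hC : 0 ≤ C)
    (hb : 1 ≤ b) (hY : 0 ≤ Y) {s₀ κ : ℝ} (hs : |s₀| ≤ 1) (hκ : 0 ≤ κ) (hν : κ ≤ |ν - E|) :
    ‖VW (tm A ν) b⁻¹ Y t s₀‖ ≤ C * Real.exp (s₀ * (ν - E)) * ta b Y κ := by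
  obtain ⟨hs1, hs2⟩ := abs_le.mp hs
  have hb0 : 0 < b := by linarith
  have hed := ed_pos b Y
  set θ := ν - E with hθ
  unfold ta
  rcases abs_cases θ with ⟨h1, h2⟩ | ⟨h1, h2⟩
  · rw [h1] at hν
    have e1 := shift_tm hA ν hC hb0 hY (c₁ := -b) (c₂ := s₀) (B := Real.exp (s₀ * θ)) le_rfl
      (by linarith) (by linarith) (fun c _ hc2 => by
        apply Real.exp_le_exp.mpr
        exact mul_le_mul_of_nonneg_right hc2 h2)
    have e2 := line_tm hA ν hC hb0 hY (c := -b) (by rw [abs_neg, abs_of_pos hb0])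
    rw [← hθ] at e2
    have e3 : Real.exp (-b * θ) ≤ Real.exp (s₀ * θ) * Real.exp (-((b - 1) * κ)) := by
      rw [← Real.exp_add]
      apply Real.exp_le_exp.mpr
      have : (b - 1) * κ ≤ (b + s₀) * θ := by
        apply mul_le_mul _ hν hκ (by linarith)
        linarith
      linarith
    have e4 : ‖VW (tm A ν) b⁻¹ Y t s₀‖ ≤ ‖VW (tm A ν) b⁻¹ Y t s₀ - VW (tm A ν) b⁻¹ Y t (-b)‖ +
        ‖VW (tm A ν) b⁻¹ Y t (-b)‖ := by
      calc ‖VW (tm A ν) b⁻¹ Y t s₀‖ = ‖(VW (tm A ν) b⁻¹ Y t s₀ - VW (tm A ν) b⁻¹ Y t (-b)) +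
            VW (tm A ν) b⁻¹ Y t (-b)‖ := by rw [sub_add_cancel]
        _ ≤ _ := norm_add_le _ _
    have e5 : 2 * (C * Real.exp (s₀ * θ) * ed b Y * (s₀ - -b)) ≤
        2 * (C * Real.exp (s₀ * θ) * ed b Y * (2 * b)) := by
      gcongr
      linarith
    have e6 : C * Real.exp (-b * θ) * (6 * b) ≤
        C * (Real.exp (s₀ * θ) * Real.exp (-((b - 1) * κ))) * (6 * b) := by
      gcongr
    calc _ ≤ _ := e4
      _ ≤ _ := add_le_add (e1.trans e5) (e2.trans e6)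
      _ = _ := by ring
  · rw [h1] at hν
    have e1 := shift_tm hA ν hC hb0 hY (c₁ := s₀) (c₂ := b) (B := Real.exp (s₀ * θ)) (by linarith)
      (by linarith) le_rfl (fun c hc1 _ => by
        apply Real.exp_le_exp.mpr
        exact mul_le_mul_of_nonpos_right hc1 h2.le)
    have e2 := line_tm hA ν hC hb0 hY (c := b) (by rw [abs_of_pos hb0])
    rw [← hθ] at e2
    have e3 : Real.exp (b * θ) ≤ Real.exp (s₀ * θ) * Real.exp (-((b - 1) * κ)) := by
      rw [← Real.exp_add]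
      apply Real.exp_le_exp.mpr
      have : (b - 1) * κ ≤ (b - s₀) * (-θ) := by
        apply mul_le_mul _ hν hκ (by linarith)
        linarith
      linarith
    have e4 : ‖VW (tm A ν) b⁻¹ Y t s₀‖ ≤ ‖VW (tm A ν) b⁻¹ Y t b - VW (tm A ν) b⁻¹ Y t s₀‖ +
        ‖VW (tm A ν) b⁻¹ Y t b‖ := by
      calc ‖VW (tm A ν) b⁻¹ Y t s₀‖ = ‖VW (tm A ν) b⁻¹ Y t b - (VW (tm A ν) b⁻¹ Y t b -
            VW (tm A ν) b⁻¹ Y t s₀)‖ := by rw [sub_sub_cancel]
        _ ≤ _ := by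
          rw [add_comm]
          exact norm_sub_le _ _
    have e5 : 2 * (C * Real.exp (s₀ * θ) * ed b Y * (b - s₀)) ≤
        2 * (C * Real.exp (s₀ * θ) * ed b Y * (2 * b)) := by
      gcongr
      linarith
    have e6 : C * Real.exp (b * θ) * (6 * b) ≤
        C * (Real.exp (s₀ * θ) * Real.exp (-((b - 1) * κ))) * (6 * b) := by
      gcongr
    calc _ ≤ _ := e4
      _ ≤ _ := add_le_add (e1.trans e5) (e2.trans e6)
      _ = _ := by ring

lemma kw_zero (a v : ℝ) : kw a 0 v = ((Real.exp (-Real.cosh (a * v)) : ℝ) : ℂ) := by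
  unfold kw
  rw [mk_eq, show (a : ℂ) * (((0 : ℝ) : ℂ) + v * I) = ((a * v : ℝ) : ℂ) * I by push_cast; ring,
    Complex.cos_mul_I, ← Complex.ofReal_cosh, ← Complex.ofReal_neg, ← Complex.ofReal_exp]

lemma cosh_one_le_two : Real.cosh 1 ≤ 2 := by
  rw [Real.cosh_eq]
  have h1 := Real.exp_one_lt_three
  have h2 : Real.exp (-1) ≤ 1 := by
    rw [Real.exp_le_one_iff]
    norm_num
  linarith

/-- the main term -/
theorem main_tm {b Y t : ℝ} (hb : 1 ≤ b) (hY : b ≤ Y) :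
    2 * b * Real.exp (-2) - 2 * ed b Y ≤ ‖VW (tm (fun _ => 1) 0) b⁻¹ Y t 1‖ := by
  have hb0 : 0 < b := by linarith
  have hA : Amp (fun _ => (1 : ℂ)) 1 0 b Y t :=
    ⟨fun z _ _ => differentiableAt_const _, fun σ v _ _ => by simp⟩
  have e1 := shift_tm hA 0 (by norm_num) hb0 (by linarith) (c₁ := 0) (c₂ := 1)
    (B := 1) (by linarith) (by norm_num) hb (fun c _ _ => by simp)
  have e2 : VW (tm (fun _ => 1) 0) b⁻¹ Y t 0 =
      ((∫ v in (-Y)..Y, Real.exp (-Real.cosh (b⁻¹ * v)) : ℝ) : ℂ) := by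
    unfold VW tm
    rw [← intervalIntegral.integral_ofReal]
    congr 1
    funext v
    rw [kw_zero]
    simp
  have hcont : Continuous (fun v : ℝ => Real.exp (-Real.cosh (b⁻¹ * v))) := by
    have := Real.continuous_cosh
    fun_prop
  have e3 : 2 * b * Real.exp (-2) ≤ ∫ v in (-Y)..Y, Real.exp (-Real.cosh (b⁻¹ * v)) := by
    have f1 : ∫ v in (-b)..b, Real.exp (-Real.cosh (b⁻¹ * v)) ≤
        ∫ v in (-Y)..Y, Real.exp (-Real.cosh (b⁻¹ * v)) := by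
      apply intervalIntegral.integral_mono_interval (by linarith) (by linarith) hY
      · exact Filter.Eventually.of_forall fun v => (Real.exp_pos _).le
      · exact hcont.intervalIntegrable _ _
    have f2 : ∫ _ in (-b)..b, Real.exp (-2) ≤ ∫ v in (-b)..b, Real.exp (-Real.cosh (b⁻¹ * v)) := by
      apply intervalIntegral.integral_mono_on (by linarith) (by simp)
        (hcont.intervalIntegrable _ _)
      intro v hv
      apply Real.exp_le_exp.mpr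
      have h1 : Real.cosh (b⁻¹ * v) ≤ Real.cosh 1 := by
        rw [Real.cosh_le_cosh, abs_one]
        exact sc hb0 (abs_le.mpr ⟨hv.1, hv.2⟩)
      have := cosh_one_le_two
      linarith
    rw [intervalIntegral.integral_const, smul_eq_mul] at f2
    linarith
  have e4 : ∫ v in (-Y)..Y, Real.exp (-Real.cosh (b⁻¹ * v)) ≤
      ‖VW (tm (fun _ => 1) 0) b⁻¹ Y t 0‖ := by
    rw [e2, Complex.norm_real, Real.norm_eq_abs]
    exact le_abs_self _
  have e5 : ‖VW (tm (fun _ => 1) 0) b⁻¹ Y t 0‖ ≤ ‖VW (tm (fun _ => 1) 0) b⁻¹ Y t 1‖ +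
      ‖VW (tm (fun _ => 1) 0) b⁻¹ Y t 1 - VW (tm (fun _ => 1) 0) b⁻¹ Y t 0‖ := by
    calc ‖VW (tm (fun _ => 1) 0) b⁻¹ Y t 0‖ = ‖VW (tm (fun _ => 1) 0) b⁻¹ Y t 1 -
          (VW (tm (fun _ => 1) 0) b⁻¹ Y t 1 - VW (tm (fun _ => 1) 0) b⁻¹ Y t 0)‖ := by
          rw [sub_sub_cancel]
      _ ≤ _ := norm_sub_le _ _
  have e6 : 2 * (1 * 1 * ed b Y * (1 - 0)) = 2 * ed b Y := by ring
  rw [e6] at e1
  linarith

theorem VW_hasSum {ι : Type} [Countable ι] (c : ι → ℂ) (ν : ι → ℝ) {A : ℂ → ℂ}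
    {C E b Y t x : ℝ} (hA : Amp A C E b Y t) (hb : 0 < b) (hY : 0 ≤ Y) (hx : |x| ≤ b)
    (hs : Summable fun i => ‖c i‖ * Real.exp (x * ν i)) :
    HasSum (fun i => c i * VW (tm A (ν i)) b⁻¹ Y t x)
      (VW (fun z => A z * ∑' i, c i * cexp (ν i * z)) b⁻¹ Y t x) := by
  have hsub : Set.uIoc (-Y) Y ⊆ Icc (-Y) Y := by
    rw [uIoc_of_le (by linarith)]
    exact Ioc_subset_Icc_self
  set K : ℝ := C * Real.exp (-(x * E)) with hK
  have key : ∀ i, c i * VW (tm A (ν i)) b⁻¹ Y t x =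
      ∫ v in (-Y)..Y, c i * (tm A (ν i) ⟨x, t + v⟩ * kw b⁻¹ x v) := by
    intro i
    unfold VW
    rw [intervalIntegral.integral_const_mul]
  simp_rw [key]
  unfold VW
  refine intervalIntegral.hasSum_integral_of_dominated_convergence
    (fun i _ => ‖c i‖ * Real.exp (x * ν i) * K) ?_ ?_ ?_ ?_ ?_
  · intro i
    have hcont : ContinuousOn (fun v : ℝ => c i * (tm A (ν i) ⟨x, t + v⟩ * kw b⁻¹ x v))
        (Icc (-Y) Y) := by
      refine continuousOn_const.mul (ContinuousOn.mul ?_ (kw_cont b⁻¹ x).continuousOn)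
      unfold tm
      refine (hA.contOn hx).mul ?_
      simp only [mk_eq]
      fun_prop
    exact (hcont.mono hsub).aestronglyMeasurable measurableSet_uIoc
  · intro i
    refine Filter.Eventually.of_forall fun v hv => ?_
    have hv' := hsub hv
    have hv2 : |v| ≤ Y := abs_le.mpr ⟨hv'.1, hv'.2⟩
    rw [norm_mul, norm_mul]
    have h1 := hA.tm_le (ν i) hx hv2
    have h2 := kw_le_one v (sc hb hx)
    have h3 : Real.exp (x * (ν i - E)) = Real.exp (x * ν i) * Real.exp (-(x * E)) := by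
      rw [← Real.exp_add]
      congr 1
      ring
    rw [h3] at h1
    calc ‖c i‖ * (‖tm A (ν i) ⟨x, t + v⟩‖ * ‖kw b⁻¹ x v‖) ≤
        ‖c i‖ * ((C * (Real.exp (x * ν i) * Real.exp (-(x * E)))) * 1) := by
          apply mul_le_mul_of_nonneg_left _ (norm_nonneg _)
          exact mul_le_mul h1 h2 (norm_nonneg _) ((norm_nonneg _).trans h1)
      _ = _ := by rw [hK]; ring
  · exact Filter.Eventually.of_forall fun v _ => hs.mul_right K
  · exact intervalIntegrable_const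
  · refine Filter.Eventually.of_forall fun v _ => ?_
    have hs2 : Summable fun i => c i * cexp (ν i * (⟨x, t + v⟩ : ℂ)) := by
      refine Summable.of_norm ?_
      refine hs.congr fun i => ?_
      rw [norm_mul, exp_norm]
    have h1 := (hs2.hasSum.mul_left (A ⟨x, t + v⟩)).mul_right (kw b⁻¹ x v)
    have h2 : (fun i => c i * (tm A (ν i) ⟨x, t + v⟩ * kw b⁻¹ x v)) =
        fun i => A ⟨x, t + v⟩ * (c i * cexp (ν i * (⟨x, t + v⟩ : ℂ))) * kw b⁻¹ x v := by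
      funext i
      unfold tm
      ring
    rw [h2]
    exact h1

lemma VW_congr {F G : ℂ → ℂ} {a Y t c : ℝ} (hY : 0 ≤ Y)
    (h : ∀ v : ℝ, -Y ≤ v → v ≤ Y → F ⟨c, t + v⟩ = G ⟨c, t + v⟩) : VW F a Y t c = VW G a Y t c := by
  unfold VW
  apply intervalIntegral.integral_congr
  intro v hv
  rw [uIcc_of_le (by linarith)] at hv
  simp only
  rw [h v hv.1 hv.2]

end Pool.Agent.T9h53.EQ
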