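import Pool.Agent.T9h53.EQ.Win

/-! # The dichotomy: exceptional zeros in every short interval or a finite exponential sum -/

set_option autoImplicit false
set_option linter.unusedSectionVars false

open Complex Filter Topology Set MeasureTheory

namespace Pool.Agent.T9h53.EQ

open Pool.Agent.T9h53.SZ Pool.Agent.T9h53.SG Pool.Agent.T9h53.AP
open Pool.Agent.T9h27.D

variable {M₁ : Type} [CommMonoidWithZero M₁] [NormalizationMonoid M₁]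
  [UniqueFactorizationMonoid M₁] [Subsingleton M₁ˣ] [Nontrivial M₁] {N₁ : M₁ →*₀ ℕ} {n₁ : ℕ}
  {M₂ : Type} [CommMonoidWithZero M₂] [NormalizationMonoid M₂]
  [UniqueFactorizationMonoid M₂] [Subsingleton M₂ˣ] [Nontrivial M₂] {N₂ : M₂ →*₀ ℕ} {n₂ : ℕ}
  {ι₁ ι₂ : Type} [Fintype ι₁] [Fintype ι₂]
  {χ₁ : M₁ →*₀ ℂ} {χ₂ : M₂ →*₀ ℂ} {F₁ F₂ : ℂ → ℂ} {R₁ R₂ : ℝ} {e₁ : ι₁ → ℕ} {e₂ : ι₂ → ℕ}
  {w₁ w₂ : ℂ}

/-- the coefficient at the frequency `lam` -/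
noncomputable def agg (N₁ : M₁ →*₀ ℕ) (N₂ : M₂ →*₀ ℕ) (χ₁ : M₁ →*₀ ℂ) (χ₂ : M₂ →*₀ ℂ)
    (α β δ lam : ℝ) : ℂ := ∑ p ∈ FB N₁ N₂ α β lam, cq N₁ N₂ χ₁ χ₂ δ p

lemma mem_FB (hN₁ : NS N₁ n₁) (hN₂ : NS N₂ n₂) {α β δ : ℝ} (hα : 1 ≤ α) (hβ : 1 ≤ β)
    {p : M₂ × M₁} {lam : ℝ} (hc : cq N₁ N₂ χ₁ χ₂ δ p ≠ 0) (hp : nq N₁ N₂ α β p = lam) :
    p ∈ FB N₁ N₂ α β lam := by
  classical
  obtain ⟨h1, h2⟩ := cq_zero δ hc
  have h3 := nq_nonneg hN₁ hN₂ (by linarith : 0 ≤ α) (by linarith : 0 ≤ β) h1 h2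
  unfold FB
  rw [Finset.mem_filter, mem_UA hN₁ hN₂ hα hβ (Real.one_le_exp (by linarith)), Real.log_exp]
  exact ⟨⟨h1, h2, by linarith⟩, hp⟩

lemma fiber_tsum (hN₁ : NS N₁ n₁) (hN₂ : NS N₂ n₂) {α β : ℝ} (δ : ℝ) (hα : 1 ≤ α) (hβ : 1 ≤ β)
    (z : ℂ) (lam : ℝ) :
    ∑' p : (nq N₁ N₂ α β) ⁻¹' {lam}, cq N₁ N₂ χ₁ χ₂ δ p * cexp (-(nq N₁ N₂ α β p : ℂ) * z) =
      agg N₁ N₂ χ₁ χ₂ α β δ lam * cexp (-(lam : ℂ) * z) := by
  classical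
  have h1 := tsum_subtype ((nq N₁ N₂ α β) ⁻¹' {lam})
    (fun p => cq N₁ N₂ χ₁ χ₂ δ p * cexp (-(nq N₁ N₂ α β p : ℂ) * z))
  rw [h1, tsum_eq_sum (s := FB N₁ N₂ α β lam)]
  · unfold agg
    rw [Finset.sum_mul]
    refine Finset.sum_congr rfl fun p hp => ?_
    have hp2 : nq N₁ N₂ α β p = lam := by
      unfold FB at hp
      exact (Finset.mem_filter.mp hp).2
    rw [Set.indicator_of_mem (by rw [mem_preimage, mem_singleton_iff]; exact hp2), hp2]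
  · intro p hp
    by_cases hm : p ∈ (nq N₁ N₂ α β) ⁻¹' {lam}
    · rw [Set.indicator_of_mem hm]
      by_contra hne
      have hc : cq N₁ N₂ χ₁ χ₂ δ p ≠ 0 := by
        intro h0
        apply hne
        rw [h0, zero_mul]
      exact hp (mem_FB hN₁ hN₂ hα hβ hc hm)
    · exact Set.indicator_of_notMem hm _

/-- the frequencies up to `E` -/
noncomputable def SE (N₁ : M₁ →*₀ ℕ) (N₂ : M₂ →*₀ ℕ) (α β E : ℝ) : Finset ℝ := by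
  classical
  exact (UA N₁ N₂ α β (Real.exp (max E 0 + 1))).image (nq N₁ N₂ α β)

lemma agg_zero_of (hN₁ : NS N₁ n₁) (hN₂ : NS N₂ n₂) {α β δ E : ℝ} (hα : 1 ≤ α) (hβ : 1 ≤ β)
    (hagg : ∀ lam : ℝ, 0 ≤ lam → E < lam → agg N₁ N₂ χ₁ χ₂ α β δ lam = 0) {lam : ℝ}
    (h : lam ∉ SE N₁ N₂ α β E) : agg N₁ N₂ χ₁ χ₂ α β δ lam = 0 := by
  classical
  by_contra hne
  have hne2 : ∃ p ∈ FB N₁ N₂ α β lam, cq N₁ N₂ χ₁ χ₂ δ p ≠ 0 := by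
    by_contra hcon
    push Not at hcon
    exact hne (Finset.sum_eq_zero hcon)
  obtain ⟨p, hp, hc⟩ := hne2
  have hp2 : nq N₁ N₂ α β p = lam := by
    unfold FB at hp
    exact (Finset.mem_filter.mp hp).2
  obtain ⟨h1, h2⟩ := cq_zero δ hc
  have h3 := nq_nonneg hN₁ hN₂ (by linarith : 0 ≤ α) (by linarith : 0 ≤ β) h1 h2
  have h4 : lam ≤ E := by
    by_contra hcon
    push Not at hcon
    exact hne (hagg lam (by linarith) hcon)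
  apply h
  unfold SE
  rw [Finset.mem_image]
  refine ⟨p, ?_, hp2⟩
  have h5 := le_max_right E 0
  have h6 := le_max_left E 0
  rw [mem_UA hN₁ hN₂ hα hβ (Real.one_le_exp (by linarith)), Real.log_exp]
  exact ⟨h1, h2, by linarith⟩

theorem poly_line (hN₁ : NS N₁ n₁) (hN₂ : NS N₂ n₂) (h₁ : HU N₁ χ₁ F₁ R₁ e₁ w₁)
    (h₂ : HU N₂ χ₂ F₂ R₂ e₂ w₂) {α β : ℝ} (δ : ℝ) (hα : 1 ≤ α) (hβ : 1 ≤ β) {E : ℝ}
    (hagg : ∀ lam : ℝ, 0 ≤ lam → E < lam → agg N₁ N₂ χ₁ χ₂ α β δ lam = 0) {z : ℂ} (hz : z.re = 1) :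
    F₂ (1 / 2 + δ * I + α * z) = (∑ lam ∈ SE N₁ N₂ α β E,
      agg N₁ N₂ χ₁ χ₂ α β δ lam * cexp (-(lam : ℂ) * z)) * F₁ (1 / 2 + β * z) := by
  obtain ⟨hsum, -⟩ := cq_summable hN₁ hN₂ h₁.le1 h₂.le1 δ hα hβ
  have hs : Summable fun p => cq N₁ N₂ χ₁ χ₂ δ p * cexp (-(nq N₁ N₂ α β p : ℂ) * z) := by
    refine Summable.of_norm (hsum.congr fun p => ?_)
    rw [norm_mul, Complex.norm_exp, ← ofReal_neg, re_ofReal_mul, hz, mul_one]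
  have h3 := hs.hasSum.tsum_fiberwise (nq N₁ N₂ α β)
  simp only [fiber_tsum hN₁ hN₂ δ hα hβ z] at h3
  have h4 : HasSum (fun lam : ℝ => agg N₁ N₂ χ₁ χ₂ α β δ lam * cexp (-(lam : ℂ) * z))
      (∑ lam ∈ SE N₁ N₂ α β E, agg N₁ N₂ χ₁ χ₂ α β δ lam * cexp (-(lam : ℂ) * z)) :=
    hasSum_sum_of_ne_finset_zero (fun lam hl => by
      rw [agg_zero_of hN₁ hN₂ hα hβ hagg hl, zero_mul])
  have h5 := h3.unique h4
  have h6 := quot_series hN₁ hN₂ h₁.le1 h₂.le1 h₁.ser h₂.ser δ hα hβ hz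
  rw [h5] at h6
  have h7 : F₁ (1 / 2 + β * z) ≠ 0 := by
    have hre : 3 / 2 ≤ (1 / 2 + β * z : ℂ).re := by
      simp [hz]
      linarith
    have h8 := LA_low' hN₁ h₁.le1 hre
    rw [← h₁.ser _ hre] at h8
    have h9 : 0 < (ZN N₁ + 1)⁻¹ := inv_pos.mpr (by have := ZN_nonneg N₁; linarith)
    exact norm_pos_iff.mp (h9.trans_le h8)
  rw [← h6, div_mul_cancel₀ _ h7]

/-- the upper region where both functions are analytic -/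
theorem poly_all (hN₁ : NS N₁ n₁) (hN₂ : NS N₂ n₂) (h₁ : HU N₁ χ₁ F₁ R₁ e₁ w₁)
    (h₂ : HU N₂ χ₂ F₂ R₂ e₂ w₂) {α β : ℝ} (δ : ℝ) (hα : 1 ≤ α) (hβ : 1 ≤ β) {E : ℝ}
    (hagg : ∀ lam : ℝ, 0 ≤ lam → E < lam → agg N₁ N₂ χ₁ χ₂ α β δ lam = 0) :
    ∀ z : ℂ, |δ| < z.im →
    F₂ (1 / 2 + δ * I + α * z) = (∑ lam ∈ SE N₁ N₂ α β E,
      agg N₁ N₂ χ₁ χ₂ α β δ lam * cexp (-(lam : ℂ) * z)) * F₁ (1 / 2 + β * z) := by
  have hδ := abs_nonneg δ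
  have hδ1 := neg_abs_le δ
  set U : Set ℂ := {z : ℂ | |δ| < z.im} with hU
  have hUp : IsPreconnected U := (convex_halfSpace_im_gt _).isPreconnected
  set f : ℂ → ℂ := fun z => F₂ (1 / 2 + δ * I + α * z) - (∑ lam ∈ SE N₁ N₂ α β E,
      agg N₁ N₂ χ₁ χ₂ α β δ lam * cexp (-(lam : ℂ) * z)) * F₁ (1 / 2 + β * z) with hf
  have han : AnalyticOnNhd ℂ f U := by
    intro z hz
    have hz' : |δ| < z.im := hz
    have p1 : 0 < z.im := by linarith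
    have p2 : 0 < δ + α * z.im := by nlinarith
    have a1 := an2 h₂ (α := α) (δ := δ) (z := z) p2
    have a2 := an1 h₁ (β := β) (z := z) (mul_pos (by linarith) p1)
    have a3 : AnalyticAt ℂ (fun z : ℂ => ∑ lam ∈ SE N₁ N₂ α β E,
        agg N₁ N₂ χ₁ χ₂ α β δ lam * cexp (-(lam : ℂ) * z)) z := by
      apply Finset.analyticAt_fun_sum
      intro lam _
      fun_prop
    exact a1.sub (a3.mul a2)
  set y₀ : ℝ := |δ| + 1 with hy₀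
  have hz₀ : (⟨1, y₀⟩ : ℂ) ∈ U := by
    show |δ| < y₀
    linarith
  have hfreq : ∃ᶠ z in 𝓝[≠] (⟨1, y₀⟩ : ℂ), f z = 0 := by
    have hcont : Continuous (fun y : ℝ => (⟨1, y⟩ : ℂ)) := by
      have : (fun y : ℝ => (⟨1, y⟩ : ℂ)) = fun y : ℝ => ((1 : ℝ) : ℂ) + y * I := by
        funext y
        rw [mk_eq]
      rw [this]
      fun_prop
    have ht : Tendsto (fun y : ℝ => (⟨1, y⟩ : ℂ)) (𝓝[≠] y₀) (𝓝[≠] (⟨1, y₀⟩ : ℂ)) := by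
      refine tendsto_nhdsWithin_of_tendsto_nhds_of_eventually_within _
        (hcont.continuousAt.tendsto.mono_left nhdsWithin_le_nhds) ?_
      filter_upwards [self_mem_nhdsWithin] with y hy
      intro h
      apply hy
      have := congrArg Complex.im h
      simpa using this
    refine ht.frequently ?_
    refine Filter.Frequently.of_forall fun y => ?_
    rw [hf]
    simp only
    rw [poly_line hN₁ hN₂ h₁ h₂ δ hα hβ hagg (z := ⟨1, y⟩) rfl, sub_self]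
  have h3 := han.eqOn_zero_of_preconnected_of_frequently_eq_zero hUp hz₀ hfreq
  intro z hz
  have h4 := h3 hz
  rw [hf] at h4
  simp only [Pi.zero_apply] at h4
  exact sub_eq_zero.mp h4

end Pool.Agent.T9h53.EQ
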