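import Pool.Agent.T9h53.EQ.Mult

/-! # Exceptional zeros in every short interval: final form -/

set_option autoImplicit false
set_option linter.unusedSectionVars false

open Complex Filter Topology Set

namespace Pool.Agent.T9h53.EQ

open Pool.Agent.T9h53.SZ Pool.Agent.T9h53.SG Pool.Agent.T9h53.AP
open Pool.Agent.T9h27.D

variable {M₁ : Type} [CommMonoidWithZero M₁] [NormalizationMonoid M₁]
  [UniqueFactorizationMonoid M₁] [Subsingleton M₁ˣ] [Nontrivial M₁] {N₁ : M₁ →*₀ ℕ} {n₁ : ℕ}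
  {M₂ : Type} [CommMonoidWithZero M₂] [NormalizationMonoid M₂]
  [UniqueFactorizationMonoid M₂] [Subsingleton M₂ˣ] [Nontrivial M₂] {N₂ : M₂ →*₀ ℕ} {n₂ : ℕ}
  {ι₁ ι₂ : Type} [Fintype ι₁] [Fintype ι₂]
  {χ₁ : M₁ →*₀ ℂ} {χ₂ : M₂ →*₀ ℂ} {F₁ F₂ : ℂ → ℂ} {R₁ R₂ : ℝ} {e₁ : ι₁ → ℕ} {e₂ : ι₂ → ℕ}
  {w₁ w₂ : ℂ}

/-- the dichotomy in the variable `z` -/
theorem dich (hN₁ : NS N₁ n₁) (hN₂ : NS N₂ n₂) (h₁ : HU N₁ χ₁ F₁ R₁ e₁ w₁)
    (h₂ : HU N₂ χ₂ F₂ R₂ e₂ w₂) (o₁ : FO N₁ χ₁) (o₂ : FO N₂ χ₂)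
    (hc₁ : Fintype.card ι₁ ≠ 0) (hc₂ : Fintype.card ι₂ ≠ 0) {α β : ℝ} (δ : ℝ) (hα : 1 ≤ α)
    (hβ : 1 ≤ β) (hmin : α = 1 ∨ β = 1) (hd : dg ι₁ ι₂ α β = 0) :
    (∃ C t₀ : ℝ, 0 < C ∧ ∀ t : ℝ, t₀ ≤ t →
      ∃ z ∈ ExcZ F₁ F₂ α β δ, |z.im - t| < C * Real.log (Real.log t)) ∨
    (α = 1 ∧ β = 1 ∧ δ = 0 ∧ ∀ s : ℂ, 0 < s.im → F₁ s = F₂ s) := by
  by_cases hagg : ∀ lam : ℝ, 0 ≤ lam → cE ι₁ ι₂ R₁ R₂ α β < lam →
      agg N₁ N₂ χ₁ χ₂ α β δ lam = 0
  · right
    have hd' : α * (Fintype.card ι₂ : ℝ) = β * (Fintype.card ι₁ : ℝ) := by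
      unfold dg at hd
      linarith
    obtain ⟨e1, e2⟩ := triv hN₁ hN₂ o₁ o₂ h₁.le1 h₂.le1 hc₁ hc₂ hα hβ hd' hagg
    have e3 : α = 1 ∧ β = 1 := by
      rcases hmin with h | h
      · exact ⟨h, e1 ▸ h⟩
      · exact ⟨e1.trans h, h⟩
    obtain ⟨e3, e4⟩ := e3
    refine ⟨e3, e4, e2, ?_⟩
    subst e2
    subst e3
    have e4' : β = 1 := e4
    subst e4'
    have hcard : Fintype.card ι₁ = Fintype.card ι₂ := by
      have : (Fintype.card ι₂ : ℝ) = Fintype.card ι₁ := by linarith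
      exact_mod_cast this.symm
    obtain ⟨k₁, hk₁, ho₁⟩ := o₁.ord
    obtain ⟨k₂, hk₂, ho₂⟩ := o₂.ord
    obtain ⟨Q, hQ, hH⟩ := HF_eq hN₁ hN₂ h₁ h₂ hc₁ hc₂ le_rfl le_rfl hd' hagg
    have hR : R₁ = R₂ := by
      refine cond_eq hN₁ hN₂ h₁ h₂ (fun a ha => norm_of_pow hk₁ (ho₁ a ha))
        (fun a ha => norm_of_pow hk₂ (ho₂ a ha)) hcard hQ ?_
      intro s hs
      have h5 := hH (s - 1 / 2) (by
        rw [abs_zero]
        simpa using hs)
      have e6 : (1 / 2 : ℂ) + ((0 : ℝ) : ℂ) * I + ((1 : ℝ) : ℂ) * (s - 1 / 2) = s := by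
        push_cast
        ring
      have e7 : (1 / 2 : ℂ) + ((1 : ℝ) : ℂ) * (s - 1 / 2) = s := by
        push_cast
        ring
      rw [e6, e7] at h5
      exact h5
    have hcE : cE ι₁ ι₂ R₁ R₂ 1 1 = 0 := by
      unfold cE
      rw [hR, hcard]
      ring
    rw [hcE] at hagg
    have hS : ∀ lam ∉ ({0} : Finset ℝ), agg N₁ N₂ χ₁ χ₂ 1 1 0 lam = 0 := by
      intro lam hl
      rw [Finset.mem_singleton] at hl
      rcases lt_trichotomy lam 0 with h | h | h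
      · exact agg_neg hN₁ hN₂ 0 le_rfl le_rfl h
      · exact absurd h hl
      · exact hagg lam h.le h
    have key : ∀ z : ℂ, z.re = 1 → F₂ (1 / 2 + z) = F₁ (1 / 2 + z) := by
      intro z hz
      have e2 := line_gen hN₁ hN₂ h₁.le1 h₂.le1 0 le_rfl le_rfl hS hz
      rw [Finset.sum_singleton, agg_nil hN₁ hN₂ 0 le_rfl le_rfl] at e2
      have hre : 3 / 2 ≤ (1 / 2 + z : ℂ).re := by
        simp [hz]
        norm_num
      rw [h₂.ser _ hre, h₁.ser _ hre]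
      simpa using e2
    set U : Set ℂ := {z : ℂ | 0 < z.im} with hU
    have hUp : IsPreconnected U := (convex_halfSpace_im_gt _).isPreconnected
    have hz₀ : (⟨1, 1⟩ : ℂ) ∈ U := by
      show (0 : ℝ) < 1
      norm_num
    have := line_ident hUp (f := fun z : ℂ => F₂ (1 / 2 + z)) (g := fun z : ℂ => F₁ (1 / 2 + z))
      (fun z hz => h₂.analytic hz) (fun z hz => h₁.analytic hz) hz₀ key
    intro s hs
    have h6 := this (show s - 1 / 2 ∈ U by
      show 0 < (s - 1 / 2).im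
      simpa using hs)
    simp only at h6
    rw [show (1 / 2 : ℂ) + (s - 1 / 2) = s by ring] at h6
    exact h6.symm
  · left
    push Not at hagg
    obtain ⟨lam, hl0, hl1, hl2⟩ := hagg
    exact win_eq hN₁ hN₂ h₁ h₂ δ hα hβ hd hl0 hl1 hl2

/-- **the dichotomy** -/
theorem dich_R (hN₁ : NS N₁ n₁) (hN₂ : NS N₂ n₂) (h₁ : HU N₁ χ₁ F₁ R₁ e₁ w₁)
    (h₂ : HU N₂ χ₂ F₂ R₂ e₂ w₂) (o₁ : FO N₁ χ₁) (o₂ : FO N₂ χ₂)
    (hc₁ : Fintype.card ι₁ ≠ 0) (hc₂ : Fintype.card ι₂ ≠ 0) (r δ : ℝ) (hr : 0 < r)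
    (hd : r * Fintype.card ι₂ = Fintype.card ι₁) :
    (∃ C T₀ : ℝ, 0 < C ∧ ∀ T : ℝ, T₀ ≤ T →
      ∃ ρ ∈ ExcR F₁ F₂ r δ, T < ρ.im ∧ ρ.im ≤ T + C * Real.log (Real.log T)) ∨
    (r = 1 ∧ δ = 0 ∧ ∀ s : ℂ, 0 < s.im → F₁ s = F₂ s) := by
  obtain ⟨α, β, hα, hβ, hmin, hrr, hd0⟩ : ∃ α β : ℝ, 1 ≤ α ∧ 1 ≤ β ∧ (α = 1 ∨ β = 1) ∧
      r = α / β ∧ dg ι₁ ι₂ α β = 0 := by
    rcases le_or_gt 1 r with h | h
    · refine ⟨r, 1, h, le_rfl, Or.inr rfl, by rw [div_one], ?_⟩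
      unfold dg
      linarith
    · refine ⟨1, 1 / r, le_rfl, by rw [le_div_iff₀ hr]; linarith, Or.inl rfl,
        by rw [one_div_one_div], ?_⟩
      unfold dg
      have : 1 * (Fintype.card ι₂ : ℝ) - 1 / r * Fintype.card ι₁ =
          (r * Fintype.card ι₂ - Fintype.card ι₁) / r := by field_simp
      rw [this, hd, sub_self, zero_div]
  have hβ0 : 0 < β := by linarith
  rcases dich hN₁ hN₂ h₁ h₂ o₁ o₂ hc₁ hc₂ δ hα hβ hmin hd0 with h | ⟨e1, e2, e3, e4⟩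
  · left
    obtain ⟨C₀, t₀, hC₀, hw⟩ := h
    have hll : Tendsto (fun T : ℝ => Real.log (Real.log T)) atTop atTop :=
      Real.tendsto_log_atTop.comp Real.tendsto_log_atTop
    have hev : ∀ᶠ T : ℝ in atTop, 4 ≤ T ∧ (t₀ ≤ T / β ∧ 3 ≤ T / β) ∧ 2 ≤ Real.log T ∧
        1 ≤ Real.log (Real.log T) ∧ 2 * C₀ * Real.log (Real.log T) ≤ T := by
      have h5 : ∀ᶠ T : ℝ in atTop, 2 * C₀ * Real.log (Real.log T) ≤ T := by
        have h6 : (fun T : ℝ => Real.log T) =o[atTop] (fun T : ℝ => T) := Real.isLittleO_log_id_atTop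
        have h7 := h6.bound (by positivity : (0 : ℝ) < (2 * C₀)⁻¹)
        filter_upwards [h7, eventually_ge_atTop 4,
          Real.tendsto_log_atTop.eventually_ge_atTop 2] with T hT hT4 hT2
        have hT0 : 0 < T := by linarith
        rw [Real.norm_eq_abs, Real.norm_eq_abs, abs_of_nonneg (by linarith), abs_of_pos hT0] at hT
        have h8 : Real.log (Real.log T) ≤ Real.log T := by
          have := Real.log_le_sub_one_of_pos (by linarith : 0 < Real.log T)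
          linarith
        calc 2 * C₀ * Real.log (Real.log T) ≤ 2 * C₀ * ((2 * C₀)⁻¹ * T) := by
              apply mul_le_mul_of_nonneg_left (h8.trans hT) (by positivity)
          _ = T := by field_simp
      filter_upwards [eventually_ge_atTop 4,
        (tendsto_id.atTop_div_const hβ0).eventually_ge_atTop t₀,
        (tendsto_id.atTop_div_const hβ0).eventually_ge_atTop 3,
        Real.tendsto_log_atTop.eventually_ge_atTop 2, hll.eventually_ge_atTop 1, h5]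
        with T a1 a2 a2' a3 a4 a5
      exact ⟨a1, ⟨a2, a2'⟩, a3, a4, a5⟩
    obtain ⟨T₀, hT₀⟩ := eventually_atTop.mp hev
    refine ⟨4 * β * C₀, T₀, by positivity, fun T hT => ?_⟩
    obtain ⟨a1, ⟨a2, a2'⟩, a3, a4, a5⟩ := hT₀ T hT
    have hT0 : 0 < T := by linarith
    set W : ℝ := 2 * C₀ * Real.log (Real.log T) with hW
    have hW0 : 0 < W := by positivity
    obtain ⟨z, hz, hzt⟩ := hw (T / β + W) (by linarith)
    have hTβ : T / β ≤ T := div_le_self hT0.le hβ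
    have hTβ0 : 0 < T / β := by positivity
    have h : 1 < Real.log (T / β + W) := by
      rw [Real.lt_log_iff_exp_lt (by positivity)]
      have := Real.exp_one_lt_d9
      linarith
    have hle : C₀ * Real.log (Real.log (T / β + W)) ≤ W := by
      have h6 : T / β + W ≤ T ^ 2 := by nlinarith
      have h7 : Real.log (T / β + W) ≤ 2 * Real.log T := by
        calc Real.log (T / β + W) ≤ Real.log (T ^ 2) :=
              Real.log_le_log (by positivity) h6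
          _ = 2 * Real.log T := by rw [Real.log_pow]; norm_num
      have h8 : Real.log (Real.log (T / β + W)) ≤ 2 * Real.log (Real.log T) := by
        calc Real.log (Real.log (T / β + W)) ≤ Real.log (2 * Real.log T) :=
              Real.log_le_log (by linarith) h7
          _ ≤ Real.log (Real.log T ^ 2) := by
              apply Real.log_le_log (by linarith)
              nlinarith
          _ = 2 * Real.log (Real.log T) := by rw [Real.log_pow]; norm_num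
      calc C₀ * Real.log (Real.log (T / β + W)) ≤ C₀ * (2 * Real.log (Real.log T)) := by gcongr
        _ = W := by rw [hW]; ring
    obtain ⟨b1, b2⟩ := abs_lt.mp hzt
    refine ⟨1 / 2 + (β : ℂ) * z, ?_, ?_, ?_⟩
    · rw [hrr]
      exact (excZ_iff F₁ F₂ δ hβ0 z).mp hz
    · have e1 : (1 / 2 + (β : ℂ) * z).im = β * z.im := by
        simp only [add_im, div_ofNat_im, one_im, zero_div, zero_add, im_ofReal_mul]
      rw [e1]
      have h3 : T / β < z.im := by linarith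
      rw [div_lt_iff₀ hβ0] at h3
      linarith
    · have e1 : (1 / 2 + (β : ℂ) * z).im = β * z.im := by
        simp only [add_im, div_ofNat_im, one_im, zero_div, zero_add, im_ofReal_mul]
      rw [e1]
      have h3 : z.im ≤ T / β + 2 * W := by linarith
      calc β * z.im ≤ β * (T / β + 2 * W) := by gcongr
        _ = T + 4 * β * C₀ * Real.log (Real.log T) := by
            rw [hW]
            field_simp
            ring
  · right
    exact ⟨by rw [hrr, e1, e2, div_one], e3, e4⟩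

end Pool.Agent.T9h53.EQ
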