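import Pool.Agent.T9h53.EQ.Loc

/-! # Characters of finite order: the scaling and the shift are trivial -/

set_option autoImplicit false
set_option linter.unusedSectionVars false

open Complex Filter Topology Set MeasureTheory

namespace Pool.Agent.T9h53.EQ

open Pool.Agent.T9h53.SZ Pool.Agent.T9h53.SG Pool.Agent.T9h53.AP
open Pool.Agent.T9h27.D

/-- a character of finite order which does not vanish at the large primes -/
structure FO {M : Type} [CommMonoidWithZero M] (N : M →*₀ ℕ) (χ : M →*₀ ℂ) : Prop where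
  ord : ∃ k : ℕ, k ≠ 0 ∧ ∀ a, χ a ≠ 0 → χ a ^ k = 1
  ex : ∃ X : ℕ, ∀ p : ℕ, p.Prime → X < p → ∃ π : M, Prime π ∧ p ∣ N π ∧ χ π ≠ 0

lemma irr {p q : ℕ} (hp : p.Prime) (hq : q.Prime) (hpq : p ≠ q) {a b : ℤ} (ha : a ≠ 0)
    (h : a * Real.log q = b * Real.log p) : False := by
  have l1 : 0 < Real.log q := Real.log_pos (by exact_mod_cast hq.one_lt)
  have l2 : 0 < Real.log p := Real.log_pos (by exact_mod_cast hp.one_lt)
  have h1 : (a.natAbs : ℝ) * Real.log q = (b.natAbs : ℝ) * Real.log p := by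
    have h2 := congrArg abs h
    rw [abs_mul, abs_mul, abs_of_pos l1, abs_of_pos l2] at h2
    rw [Nat.cast_natAbs, Nat.cast_natAbs]
    push_cast
    exact h2
  rw [← Real.log_pow, ← Real.log_pow] at h1
  have h3 : (q : ℝ) ^ a.natAbs = (p : ℝ) ^ b.natAbs :=
    Real.log_injOn_pos (mem_Ioi.mpr (pow_pos (by exact_mod_cast hq.pos) _))
      (mem_Ioi.mpr (pow_pos (by exact_mod_cast hp.pos) _)) h1
  have h4 : q ^ a.natAbs = p ^ b.natAbs := by exact_mod_cast h3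
  have h5 : q ∣ p ^ b.natAbs := by
    rw [← h4]
    exact dvd_pow_self q (by omega)
  have h6 := (Nat.prime_dvd_prime_iff_eq hq hp).mp (hq.dvd_of_dvd_pow h5)
  exact hpq h6.symm

section two

variable {M₁ : Type} [CommMonoidWithZero M₁] [NormalizationMonoid M₁]
  [UniqueFactorizationMonoid M₁] [Subsingleton M₁ˣ] [Nontrivial M₁] {N₁ : M₁ →*₀ ℕ} {n₁ : ℕ}
  {M₂ : Type} [CommMonoidWithZero M₂] [NormalizationMonoid M₂]
  [UniqueFactorizationMonoid M₂] [Subsingleton M₂ˣ] [Nontrivial M₂] {N₂ : M₂ →*₀ ℕ} {n₂ : ℕ}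
  {χ₁ : M₁ →*₀ ℂ} {χ₂ : M₂ →*₀ ℂ}

lemma norm_of_pow {x : ℂ} {k : ℕ} (hk : k ≠ 0) (h : x ^ k = 1) : ‖x‖ = 1 := by
  have h2 := congrArg norm h
  rw [norm_pow, norm_one] at h2
  exact (pow_eq_one_iff_of_nonneg (norm_nonneg _) hk).mp h2

/-- one prime -/
lemma one_prime (hN₁ : NS N₁ n₁) (hN₂ : NS N₂ n₂) {k₁ k₂ : ℕ} (hk₁ : k₁ ≠ 0) (hk₂ : k₂ ≠ 0)
    (ho₁ : ∀ a, χ₁ a ≠ 0 → χ₁ a ^ k₁ = 1) (ho₂ : ∀ a, χ₂ a ≠ 0 → χ₂ a ^ k₂ = 1) {q : ℕ}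
    (hq : q.Prime) (hex : ∃ π : M₂, Prime π ∧ q ∣ N₂ π ∧ χ₂ π ≠ 0) {α β δ : ℝ} (hα : 1 ≤ α)
    (hβ : 1 ≤ β) (h : ∀ z : ℂ, HQ N₂ q χ₂ (1 / 2 + δ * I + α * z) = HQ N₁ q χ₁ (1 / 2 + β * z)) :
    α = β ∧ ∃ a : ℤ, δ * (k₁ * k₂ * (n₁.factorial * n₂.factorial) : ℕ) * Real.log q =
      a * (2 * Real.pi) := by
  obtain ⟨π₂, hπ₂, hd₂, hc₂⟩ := hex
  have hα0 : (α : ℂ) ≠ 0 := by
    exact_mod_cast (by linarith : α ≠ 0)
  have hlq : 0 < Real.log q := Real.log_pos (by exact_mod_cast hq.one_lt)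
  -- the norms
  have hpow : ∀ {M : Type} [CommMonoidWithZero M] (N : M →*₀ ℕ) (π : M) (m : ℕ),
      (∃ q' f : ℕ, q'.Prime ∧ 1 ≤ f ∧ f ≤ m ∧ N π = q' ^ f) → ¬ (N π).Coprime q →
      ∃ f : ℕ, f ≠ 0 ∧ f ∣ m.factorial ∧ N π = q ^ f := by
    rintro M _ N π m ⟨q', f, hq', h1, h2, h3⟩ h4
    have h5 : q' = q := by
      by_contra hne
      apply h4
      rw [h3]
      exact Nat.Coprime.pow_left f ((Nat.coprime_primes hq' hq).mpr hne)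
    refine ⟨f, by omega, Nat.dvd_factorial (by omega) h2, ?_⟩
    rw [h3, h5]
  have hnc : ¬ (N₂ π₂).Coprime q := by
    rw [Nat.Prime.not_coprime_iff_dvd]
    exact ⟨q, hq, hd₂, dvd_rfl⟩
  obtain ⟨f₂, hf₂, hf₂d, hf₂e⟩ := hpow N₂ π₂ n₂ (hN₂.pp π₂ hπ₂) hnc
  have hL₂ : Real.log (N₂ π₂ : ℕ) = f₂ * Real.log q := by
    rw [hf₂e]
    push_cast
    rw [Real.log_pow]
  have hf₂0 : (0 : ℝ) < f₂ := by exact_mod_cast Nat.pos_of_ne_zero hf₂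
  have hL₂0 : 0 < Real.log (N₂ π₂ : ℕ) := by
    rw [hL₂]
    positivity
  have hN₂0 : ((N₂ π₂ : ℕ) : ℂ) ≠ 0 := by
    exact_mod_cast (hN₂.pos hπ₂.ne_zero).ne'
  have cpw₂ : ∀ s : ℂ, ((N₂ π₂ : ℕ) : ℂ) ^ (-s) = cexp (-s * (f₂ * Real.log q : ℝ)) := by
    intro s
    rw [Complex.cpow_def_of_ne_zero hN₂0, ← Complex.natCast_log, hL₂]
    congr 1
    ring
  -- the root
  set s₀ : ℂ := Complex.log (χ₂ π₂) / (f₂ * Real.log q : ℝ) with hs₀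
  have hLc : ((f₂ * Real.log q : ℝ) : ℂ) ≠ 0 := by
    exact_mod_cast (by positivity : (f₂ : ℝ) * Real.log q ≠ 0)
  have hroot : cexp (s₀ * (f₂ * Real.log q : ℝ)) = χ₂ π₂ := by
    rw [hs₀, div_mul_cancel₀ _ hLc, Complex.exp_log hc₂]
  have hs₀re : s₀.re = 0 := by
    have h1 : s₀.re = (Complex.log (χ₂ π₂)).re / (f₂ * Real.log q) := by
      rw [hs₀, Complex.div_ofReal_re]
    rw [h1, Complex.log_re, norm_of_pow hk₂ (ho₂ _ hc₂), Real.log_one, zero_div]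
  set z₀ : ℂ := (s₀ - 1 / 2 - δ * I) / α with hz₀
  have hz₀' : 1 / 2 + δ * I + α * z₀ = s₀ := by
    rw [hz₀, mul_div_cancel₀ _ hα0]
    ring
  have h0 : HQ N₂ q χ₂ s₀ = 0 := by
    unfold HQ
    refine Finset.prod_eq_zero ((mem_SQ hN₂ hq.ne_zero).mpr ⟨hπ₂, hnc⟩) ?_
    rw [cpw₂, neg_mul, Complex.exp_neg, hroot, mul_inv_cancel₀ hc₂, sub_self]
  have h1 := h z₀
  rw [hz₀', h0] at h1
  set s₁ : ℂ := 1 / 2 + β * z₀ with hs₁
  symm at h1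
  unfold HQ at h1
  obtain ⟨π₁, hm₁, h2⟩ := Finset.prod_eq_zero_iff.mp h1
  obtain ⟨hπ₁, hnc₁⟩ := (mem_SQ hN₁ hq.ne_zero).mp hm₁
  obtain ⟨f₁, hf₁, hf₁d, hf₁e⟩ := hpow N₁ π₁ n₁ (hN₁.pp π₁ hπ₁) hnc₁
  have hL₁ : Real.log (N₁ π₁ : ℕ) = f₁ * Real.log q := by
    rw [hf₁e]
    push_cast
    rw [Real.log_pow]
  have hf₁0 : (0 : ℝ) < f₁ := by exact_mod_cast Nat.pos_of_ne_zero hf₁
  have hN₁0 : ((N₁ π₁ : ℕ) : ℂ) ≠ 0 := by
    exact_mod_cast (hN₁.pos hπ₁.ne_zero).ne'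
  have cpw₁ : ((N₁ π₁ : ℕ) : ℂ) ^ (-s₁) = cexp (-s₁ * (f₁ * Real.log q : ℝ)) := by
    rw [Complex.cpow_def_of_ne_zero hN₁0, ← Complex.natCast_log, hL₁]
    congr 1
    ring
  rw [cpw₁, sub_eq_zero] at h2
  have hc₁ : χ₁ π₁ ≠ 0 := by
    intro h3
    rw [h3, zero_mul] at h2
    exact one_ne_zero h2
  have h3 : χ₁ π₁ = cexp (s₁ * (f₁ * Real.log q : ℝ)) := by
    rw [neg_mul, Complex.exp_neg] at h2
    have h9 := (eq_mul_inv_iff_mul_eq₀ (Complex.exp_ne_zero _)).mp h2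
    rw [one_mul] at h9
    exact h9.symm
  have hs₁re : s₁.re = 0 := by
    have h4 := norm_of_pow hk₁ (ho₁ _ hc₁)
    rw [h3, Complex.norm_exp, re_mul_ofReal, Real.exp_eq_one_iff] at h4
    rcases mul_eq_zero.mp h4 with h5 | h5
    · exact h5
    · exfalso
      have : (0 : ℝ) < f₁ * Real.log q := by positivity
      linarith
  have hαβ : α = β := by
    have e1 : s₀.re = 1 / 2 + α * z₀.re := by
      rw [← hz₀']
      simp
    have e2 : s₁.re = 1 / 2 + β * z₀.re := by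
      rw [hs₁]
      simp
    rw [hs₀re] at e1
    rw [hs₁re] at e2
    have e3 : z₀.re ≠ 0 := by
      intro h5
      rw [h5] at e1
      norm_num at e1
    have e4 : (α - β) * z₀.re = 0 := by linarith
    rcases mul_eq_zero.mp e4 with h5 | h5
    · linarith
    · exact absurd h5 e3
  refine ⟨hαβ, ?_⟩
  have hss : s₀ = s₁ + δ * I := by
    rw [hs₁, ← hz₀', hαβ]
    ring
  -- the powers
  have p₂ : cexp (s₀ * (f₂ * Real.log q : ℝ)) ^ k₂ = 1 := by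
    rw [hroot]
    exact ho₂ _ hc₂
  have p₁ : cexp (s₁ * (f₁ * Real.log q : ℝ)) ^ k₁ = 1 := by
    rw [← h3]
    exact ho₁ _ hc₁
  obtain ⟨g₂, hg₂⟩ := hf₂d
  obtain ⟨g₁, hg₁⟩ := hf₁d
  have q₂ : cexp (s₀ * ((k₁ * k₂ * (n₁.factorial * n₂.factorial) : ℕ) * Real.log q : ℝ)) = 1 := by
    have e1 : s₀ * ((k₁ * k₂ * (n₁.factorial * n₂.factorial) : ℕ) * Real.log q : ℝ) =
        ((k₂ * (k₁ * n₁.factorial * g₂) : ℕ) : ℂ) * (s₀ * (f₂ * Real.log q : ℝ)) := by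
      rw [hg₂]
      push_cast
      ring
    rw [e1, Complex.exp_nat_mul, pow_mul, p₂, one_pow]
  have q₁ : cexp (s₁ * ((k₁ * k₂ * (n₁.factorial * n₂.factorial) : ℕ) * Real.log q : ℝ)) = 1 := by
    have e1 : s₁ * ((k₁ * k₂ * (n₁.factorial * n₂.factorial) : ℕ) * Real.log q : ℝ) =
        ((k₁ * (k₂ * n₂.factorial * g₁) : ℕ) : ℂ) * (s₁ * (f₁ * Real.log q : ℝ)) := by
      rw [hg₁]
      push_cast
      ring
    rw [e1, Complex.exp_nat_mul, pow_mul, p₁, one_pow]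
  rw [hss, add_mul, Complex.exp_add, q₁, one_mul, Complex.exp_eq_one_iff] at q₂
  obtain ⟨a, ha⟩ := q₂
  refine ⟨a, ?_⟩
  have ha' := congrArg Complex.im ha
  have e5 : ((δ : ℂ) * I * ((k₁ * k₂ * (n₁.factorial * n₂.factorial) : ℕ) * Real.log q : ℝ)).im =
      δ * ((k₁ * k₂ * (n₁.factorial * n₂.factorial) : ℕ) * Real.log q) := by
    rw [mul_comm (δ : ℂ) I, mul_assoc, ← ofReal_mul, mul_comm I, im_ofReal_mul, I_im, mul_one]
  have e6 : ((a : ℂ) * (2 * Real.pi * I)).im = a * (2 * Real.pi) := by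
    have : ((a : ℂ) * (2 * Real.pi * I)) = ((a * (2 * Real.pi) : ℝ) : ℂ) * I := by
      push_cast
      ring
    rw [this, im_ofReal_mul, I_im, mul_one]
  rw [e5, e6] at ha'
  linarith

/-- **the scaling and the shift are trivial** -/
theorem triv (hN₁ : NS N₁ n₁) (hN₂ : NS N₂ n₂) (o₁ : FO N₁ χ₁) (o₂ : FO N₂ χ₂)
    (h₁ : ∀ a, ‖χ₁ a‖ ≤ 1) (h₂ : ∀ a, ‖χ₂ a‖ ≤ 1)
    {α β : ℝ} {m₁ m₂ : ℕ} (hm₁ : m₁ ≠ 0) (hm₂ : m₂ ≠ 0) (hα : 1 ≤ α) (hβ : 1 ≤ β)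
    (hd : α * m₂ = β * m₁) {δ E : ℝ}
    (hagg : ∀ lam : ℝ, 0 ≤ lam → E < lam → agg N₁ N₂ χ₁ χ₂ α β δ lam = 0) :
    α = β ∧ δ = 0 := by
  obtain ⟨k₁, hk₁, ho₁⟩ := o₁.ord
  obtain ⟨k₂, hk₂, ho₂⟩ := o₂.ord
  obtain ⟨X, hX⟩ := o₂.ex
  set Y : ℕ := max X ⌊Real.exp (m₁ / α * E)⌋₊ with hY
  have key : ∀ q : ℕ, q.Prime → Y < q → α = β ∧ ∃ a : ℤ,
      δ * (k₁ * k₂ * (n₁.factorial * n₂.factorial) : ℕ) * Real.log q = a * (2 * Real.pi) := by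
    intro q hq hqY
    refine one_prime hN₁ hN₂ hk₁ hk₂ ho₁ ho₂ hq (hX q hq (lt_of_le_of_lt (le_max_left _ _) hqY))
      hα hβ ?_
    refine HQ_eq hN₁ hN₂ h₁ h₂ hm₁ hm₂ hα hβ hd hagg hq ?_
    have h3 := lt_of_le_of_lt (le_max_right _ _) hqY
    exact (Nat.floor_lt (Real.exp_pos _).le).mp h3
  obtain ⟨p, hpY, hp⟩ := Nat.exists_infinite_primes (Y + 1)
  obtain ⟨q, hqY, hq⟩ := Nat.exists_infinite_primes (p + 1)
  obtain ⟨e1, a, ha⟩ := key p hp (by omega)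
  obtain ⟨-, b, hb⟩ := key q hq (by omega)
  refine ⟨e1, ?_⟩
  by_contra hδ
  set W : ℝ := ((k₁ * k₂ * (n₁.factorial * n₂.factorial) : ℕ) : ℝ) with hW
  have hW0 : 0 < W := by
    rw [hW]
    have := Nat.factorial_pos n₁
    have := Nat.factorial_pos n₂
    have := Nat.pos_of_ne_zero hk₁
    have := Nat.pos_of_ne_zero hk₂
    exact_mod_cast (by positivity)
  have l1 : 0 < Real.log p := Real.log_pos (by exact_mod_cast hp.one_lt)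
  have hpi := Real.pi_pos
  have ha0 : a ≠ 0 := by
    intro h0
    rw [h0, Int.cast_zero, zero_mul] at ha
    rcases mul_eq_zero.mp ha with h5 | h5
    · rcases mul_eq_zero.mp h5 with h6 | h6
      · exact hδ h6
      · exact hW0.ne' h6
    · exact l1.ne' h5
  apply irr hp hq (by omega) (a := a) (b := b) ha0
  have e3 : (a : ℝ) = δ * W * Real.log p / (2 * Real.pi) := by
    rw [ha]
    field_simp
  have e4 : (b : ℝ) = δ * W * Real.log q / (2 * Real.pi) := by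
    rw [hb]
    field_simp
  rw [e3, e4]
  ring

end two

end Pool.Agent.T9h53.EQ
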