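import Pool.Agent.T9h53.EQ.Fo

/-! # The factors of the functional equations along a sequence -/

set_option autoImplicit false
set_option linter.unusedSectionVars false

open Complex Filter Topology Set

namespace Pool.Agent.T9h53.EQ

open Pool.Agent.T9h53.SZ Pool.Agent.T9h53.SG

/-- the points to the right -/
noncomputable def sk (k : ℕ) : ℂ := ⟨1 / 2 + k, k⟩

/-- the points to the left -/
noncomputable def sl (k : ℕ) : ℂ := ⟨1 / 2 - k, k⟩

lemma sk_sl (k : ℕ) : 1 - (starRingEnd ℂ) (sk k) = sl k := by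
  unfold sk sl
  apply Complex.ext
  · simp
    ring
  · simp

/-- the quotient of the two types of gamma factors -/
lemma kap {s : ℂ} (hs : s.im ≠ 0) :
    (‖Gammaℝ (1 - s + 1)‖ / ‖Gammaℝ (s + 1)‖) =
      (‖Gammaℝ (1 - s)‖ / ‖Gammaℝ s‖) * (‖Complex.cos (Real.pi * s / 2)‖ /
        ‖Complex.sin (Real.pi * s / 2)‖) := by
  have hn : ∀ n : ℕ, s ≠ -n := by
    intro n h
    apply hs
    rw [h]
    simp
  have h1 := inv_Gammaℝ_one_sub hn
  have h2 := inv_Gammaℝ_two_sub hn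
  have g1 : Gammaℝ s ≠ 0 := H370.DL.Gammaℝ_ne_zero_of_im hs
  have g2 : Gammaℝ (s + 1) ≠ 0 := H370.DL.Gammaℝ_ne_zero_of_im (by simpa using hs)
  have g3 : Gammaℝ (1 - s) ≠ 0 := H370.DL.Gammaℝ_ne_zero_of_im (by simpa using hs)
  have g4 : Gammaℝ (2 - s) ≠ 0 := H370.DL.Gammaℝ_ne_zero_of_im (by simpa using hs)
  have e1 : (1 : ℂ) - s + 1 = 2 - s := by ring
  rw [e1]
  have c1 : Gammaℂ s * Complex.cos (Real.pi * s / 2) ≠ 0 := by
    intro h0
    rw [h0, zero_mul] at h1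
    exact inv_ne_zero g3 h1
  have c2 : Gammaℂ s * Complex.sin (Real.pi * s / 2) ≠ 0 := by
    intro h0
    rw [h0, zero_mul] at h2
    exact inv_ne_zero g4 h2
  have n1 := congrArg norm h1
  have n2 := congrArg norm h2
  rw [norm_inv, norm_mul, norm_mul, norm_inv] at n1 n2
  have p1 := norm_pos_iff.mpr g1
  have p2 := norm_pos_iff.mpr g2
  have p3 := norm_pos_iff.mpr g3
  have p4 := norm_pos_iff.mpr g4
  have p5 := norm_pos_iff.mpr (left_ne_zero_of_mul c1)
  have p6 := norm_pos_iff.mpr (right_ne_zero_of_mul c1)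
  have p7 := norm_pos_iff.mpr (right_ne_zero_of_mul c2)
  have e2 : ‖Gammaℝ (1 - s)‖ = ‖Gammaℝ s‖ / (‖Gammaℂ s‖ * ‖Complex.cos (Real.pi * s / 2)‖) := by
    rw [← inv_inv ‖Gammaℝ (1 - s)‖, n1]
    field_simp
  have e3 : ‖Gammaℝ (2 - s)‖ =
      ‖Gammaℝ (s + 1)‖ / (‖Gammaℂ s‖ * ‖Complex.sin (Real.pi * s / 2)‖) := by
    rw [← inv_inv ‖Gammaℝ (2 - s)‖, n2]
    field_simp
  rw [e2, e3]
  generalize ‖Complex.sin (Real.pi * s / 2)‖ = a at *
  generalize ‖Complex.cos (Real.pi * s / 2)‖ = b at *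
  field_simp

lemma cos_sin_norm {w : ℂ} : ‖Complex.cos w‖ / ‖Complex.sin w‖ =
    ‖1 + cexp (2 * I * w)‖ / ‖1 - cexp (2 * I * w)‖ := by
  have h1 : Complex.cos w = cexp (-w * I) / 2 * (1 + cexp (2 * I * w)) := by
    rw [Complex.cos, mul_add, mul_one, div_mul_eq_mul_div, ← Complex.exp_add,
      show -w * I + 2 * I * w = w * I by ring]
    ring
  have h2 : Complex.sin w = cexp (-w * I) * I / 2 * (1 - cexp (2 * I * w)) := by
    rw [Complex.sin, mul_sub, mul_one]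
    rw [show cexp (-w * I) * I / 2 * cexp (2 * I * w) = (cexp (-w * I) * cexp (2 * I * w)) * I / 2
      by ring, ← Complex.exp_add, show -w * I + 2 * I * w = w * I by ring]
    ring
  rw [h1, h2, norm_mul, norm_mul]
  have h3 : ‖cexp (-w * I) * I / 2‖ = ‖cexp (-w * I) / 2‖ := by
    rw [norm_div, norm_mul, norm_I, mul_one, norm_div]
  rw [h3, mul_div_mul_left]
  rw [norm_ne_zero_iff]
  exact div_ne_zero (Complex.exp_ne_zero _) two_ne_zero

lemma kap_tendsto : Tendsto (fun k : ℕ => ‖Complex.cos (Real.pi * sk k / 2)‖ /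
    ‖Complex.sin (Real.pi * sk k / 2)‖) atTop (𝓝 1) := by
  simp only [cos_sin_norm]
  have h1 : Tendsto (fun k : ℕ => cexp (2 * I * (Real.pi * sk k / 2))) atTop (𝓝 0) := by
    rw [tendsto_zero_iff_norm_tendsto_zero]
    have h2 : ∀ k : ℕ, ‖cexp (2 * I * (Real.pi * sk k / 2))‖ = Real.exp (-(Real.pi * k)) := by
      intro k
      rw [Complex.norm_exp]
      congr 1
      unfold sk
      simp
      ring
    simp only [h2]
    refine Real.tendsto_exp_neg_atTop_nhds_zero.comp ?_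
    exact Tendsto.const_mul_atTop Real.pi_pos tendsto_natCast_atTop_atTop
  have h3 := (tendsto_const_nhds (x := (1 : ℂ)) (f := atTop (α := ℕ))).add h1
  have h4 := (tendsto_const_nhds (x := (1 : ℂ)) (f := atTop (α := ℕ))).sub h1
  have h5 := h3.norm.div h4.norm (by simp)
  have h6 : ‖(1 : ℂ) + 0‖ / ‖(1 : ℂ) - 0‖ = 1 := by simp
  rw [h6] at h5
  exact h5

/-- the normalised factor of the functional equation -/
lemma XF_tendsto {ι : Type} [Fintype ι] {R : ℝ} (hR : 0 < R) (e : ι → ℕ) (he : ∀ i, e i ≤ 1)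
    {w : ℂ} (hw : ‖w‖ = 1) :
    Tendsto (fun k : ℕ => ‖XF R e w (sk k)‖ * R ^ k /
      (‖Gammaℝ (1 - sk k)‖ / ‖Gammaℝ (sk k)‖) ^ Fintype.card ι) atTop (𝓝 1) := by
  have hR0 : (R : ℂ) ≠ 0 := by exact_mod_cast hR.ne'
  have him : ∀ k : ℕ, 1 ≤ k → (sk k).im ≠ 0 := by
    intro k hk
    unfold sk
    simp
    omega
  have h1 : ∀ᶠ k : ℕ in atTop, ‖XF R e w (sk k)‖ * R ^ k /
      (‖Gammaℝ (1 - sk k)‖ / ‖Gammaℝ (sk k)‖) ^ Fintype.card ι =
      ∏ i : ι, (if e i = 0 then 1 else (‖Complex.cos (Real.pi * sk k / 2)‖ /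
    ‖Complex.sin (Real.pi * sk k / 2)‖)) := by
    filter_upwards [eventually_ge_atTop 1] with k hk
    have hs := him k hk
    have g1 : Gammaℝ (sk k) ≠ 0 := H370.DL.Gammaℝ_ne_zero_of_im hs
    have g3 : Gammaℝ (1 - sk k) ≠ 0 := H370.DL.Gammaℝ_ne_zero_of_im (by simpa using hs)
    have p1 := norm_pos_iff.mpr g1
    have p3 := norm_pos_iff.mpr g3
    have e1 : ∀ s : ℂ, ‖GR R e s‖ = R ^ (s.re / 2) * ∏ i, ‖Gammaℝ (s + e i)‖ := by
      intro s
      show ‖(R : ℂ) ^ (s / 2) * ∏ i, Gammaℝ (s + e i)‖ = _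
      rw [norm_mul, norm_prod, Complex.norm_cpow_eq_rpow_re_of_pos hR]
      congr 2
      simp
    have e2 : ‖XF R e w (sk k)‖ * R ^ k = ∏ i, (‖Gammaℝ (1 - sk k + e i)‖ /
        ‖Gammaℝ (sk k + e i)‖) := by
      unfold XF
      rw [norm_div, norm_mul, hw, one_mul, e1, e1, Finset.prod_div_distrib]
      have e3 : R ^ ((1 - sk k).re / 2) * R ^ k = R ^ ((sk k).re / 2) := by
        rw [← Real.rpow_natCast R k, ← Real.rpow_add hR]
        congr 1
        unfold sk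
        simp
        ring
      have e4 : (R : ℝ) ^ ((sk k).re / 2) ≠ 0 := (Real.rpow_pos_of_pos hR _).ne'
      rw [show R ^ ((1 - sk k).re / 2) * (∏ i, ‖Gammaℝ (1 - sk k + (e i : ℂ))‖) /
        (R ^ ((sk k).re / 2) * ∏ i, ‖Gammaℝ (sk k + (e i : ℂ))‖) * R ^ k =
        (R ^ ((1 - sk k).re / 2) * R ^ k) * (∏ i, ‖Gammaℝ (1 - sk k + (e i : ℂ))‖) /
        (R ^ ((sk k).re / 2) * ∏ i, ‖Gammaℝ (sk k + (e i : ℂ))‖) by ring, e3,
        mul_div_mul_left _ _ e4]
    rw [e2, ← Finset.card_univ, ← Finset.prod_const, ← Finset.prod_div_distrib]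
    refine Finset.prod_congr rfl fun i _ => ?_
    have hi := he i
    interval_cases h : e i
    · simp only [Nat.cast_zero, add_zero, if_true]
      rw [div_self]
      positivity
    · simp only [Nat.cast_one, one_ne_zero, if_false]
      rw [kap hs, mul_comm, mul_div_assoc, div_self, mul_one]
      positivity
  refine Tendsto.congr' (h1.mono fun k hk => hk.symm) ?_
  have h3 : Tendsto (fun k : ℕ => ∏ i : ι, (if e i = 0 then (1 : ℝ) else
      (‖Complex.cos (Real.pi * sk k / 2)‖ / ‖Complex.sin (Real.pi * sk k / 2)‖))) atTop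
      (𝓝 (∏ i : ι, (1 : ℝ))) := by
    refine tendsto_finsetProd _ fun i _ => ?_
    by_cases h : e i = 0
    · exact Tendsto.congr (f₁ := fun _ : ℕ => (1 : ℝ)) (fun k => (if_pos h).symm)
        tendsto_const_nhds
    · exact kap_tendsto.congr (fun k => (if_neg h).symm)
  rw [Finset.prod_const_one] at h3
  exact h3

end Pool.Agent.T9h53.EQ
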