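import Pool.Agent.T9h53.EQ.Dich

/-! # Imprimitive characters: removing the local factors at finitely many primes -/

set_option autoImplicit false
set_option linter.unusedSectionVars false

open Complex Filter Topology Set MeasureTheory

namespace Pool.Agent.T9h53.EQ

open Pool.Agent.T9h53.SZ Pool.Agent.T9h53.SG Pool.Agent.T9h53.AP
open Pool.Agent.T9h27.D

section one

variable {M : Type} [CommMonoidWithZero M] [NormalizationMonoid M]
  [UniqueFactorizationMonoid M] [Subsingleton Mˣ] [Nontrivial M] {N : M →*₀ ℕ} {n : ℕ}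

/-- the imprimitive character: zero where the norm is not prime to `Q` -/
noncomputable def cofN (N : M →*₀ ℕ) (Q : ℕ) (χ : M →*₀ ℂ) : M →*₀ ℂ where
  toFun a := if (N a).Coprime Q then χ a else 0
  map_zero' := by simp
  map_one' := by simp
  map_mul' a b := by
    simp only [map_mul, Nat.coprime_mul_iff_left]
    by_cases h1 : (N a).Coprime Q <;> by_cases h2 : (N b).Coprime Q
    · rw [if_pos ⟨h1, h2⟩, if_pos h1, if_pos h2]
    · rw [if_neg (fun h => h2 h.2), if_neg h2, mul_zero]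
    · rw [if_neg (fun h => h1 h.1), if_neg h1, zero_mul]
    · rw [if_neg (fun h => h1 h.1), if_neg h1, zero_mul]

lemma cofN_apply (N : M →*₀ ℕ) (Q : ℕ) (χ : M →*₀ ℂ) (a : M) :
    cofN N Q χ a = if (N a).Coprime Q then χ a else 0 := rfl

lemma cofN_le (N : M →*₀ ℕ) (Q : ℕ) {χ : M →*₀ ℂ} (h : ∀ a, ‖χ a‖ ≤ 1) (a : M) :
    ‖cofN N Q χ a‖ ≤ 1 := by
  rw [cofN_apply]
  split_ifs
  · exact h a
  · rw [norm_zero]
    exact zero_le_one

open Classical in
/-- the function with the multiples of the elements of `T` removed -/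
noncomputable def cut (T : Finset M) (χ : M →*₀ ℂ) (a : M) : ℂ :=
  if ∃ π ∈ T, π ∣ a then 0 else χ a

lemma cut_zero (T : Finset M) (χ : M →*₀ ℂ) : cut T χ 0 = 0 := by
  unfold cut
  split_ifs
  · rfl
  · exact map_zero χ

lemma cut_le (T : Finset M) {χ : M →*₀ ℂ} (h : ∀ a, ‖χ a‖ ≤ 1) (a : M) : ‖cut T χ a‖ ≤ 1 := by
  unfold cut
  split_ifs
  · rw [norm_zero]
    exact zero_le_one
  · exact h a

open Classical in
lemma cut_step (hN : NS N n) {T : Finset M} (hT : ∀ π ∈ T, Prime π) {π : M} (hπ : Prime π)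
    (hπT : π ∉ T) {χ : M →*₀ ℂ} (h1 : ∀ a, ‖χ a‖ ≤ 1) {s : ℂ} (hs : 3 / 2 ≤ s.re) :
    LA N (cut (insert π T) χ) s =
      (1 - χ π * ((N π : ℕ) : ℂ) ^ (-s)) * LA N (cut T χ) s := by
  have hdiff := LA_sub hN (cut_zero T χ) (cut_le T h1) (cut_zero (insert π T) χ)
    (cut_le (insert π T) h1) hs
  have hmul : ∀ b : M, cut T χ (π * b) = χ π * cut T χ b := by
    intro b
    have hiff : (∃ π' ∈ T, π' ∣ π * b) ↔ ∃ π' ∈ T, π' ∣ b := by
      constructor
      · rintro ⟨π', h2, h3⟩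
        refine ⟨π', h2, ?_⟩
        rcases (hT π' h2).dvd_or_dvd h3 with h4 | h4
        · exfalso
          have h5 := ((hT π' h2).associated_of_dvd hπ h4)
          rw [associated_iff_eq] at h5
          rw [h5] at h2
          exact hπT h2
        · exact h4
      · rintro ⟨π', h2, h3⟩
        exact ⟨π', h2, h3.mul_left π⟩
    unfold cut
    by_cases h : ∃ π' ∈ T, π' ∣ b
    · rw [if_pos h, if_pos (hiff.mpr h), mul_zero]
    · rw [if_neg h, if_neg (fun h' => h (hiff.mp h')), map_mul]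
  have hsub : LA N (fun a => cut T χ a - cut (insert π T) χ a) s =
      χ π * ((N π : ℕ) : ℂ) ^ (-s) * LA N (cut T χ) s := by
    unfold LA
    have hinj : Function.Injective (fun b : M => π * b) := mul_right_injective₀ hπ.ne_zero
    rw [← hinj.tsum_eq (f := fun a => (cut T χ a - cut (insert π T) χ a) * ((N a : ℕ) : ℂ) ^ (-s)),
      ← tsum_mul_left]
    · refine tsum_congr fun b => ?_
      have e1 : cut (insert π T) χ (π * b) = 0 := by
        unfold cut
        rw [if_pos ⟨π, Finset.mem_insert_self _ _, dvd_mul_right π b⟩]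
      rw [e1, sub_zero, hmul, map_mul, Nat.cast_mul, Complex.natCast_mul_natCast_cpow]
      ring
    · intro a ha
      rw [Function.mem_support] at ha
      have h2 : π ∣ a := by
        by_contra hc
        apply ha
        have : cut (insert π T) χ a = cut T χ a := by
          unfold cut
          have hiff : (∃ π' ∈ insert π T, π' ∣ a) ↔ ∃ π' ∈ T, π' ∣ a := by
            constructor
            · rintro ⟨π', h3, h4⟩
              rcases Finset.mem_insert.mp h3 with h5 | h5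
              · exact absurd (h5 ▸ h4) hc
              · exact ⟨π', h5, h4⟩
            · rintro ⟨π', h3, h4⟩
              exact ⟨π', Finset.mem_insert_of_mem h3, h4⟩
          simp only [hiff]
        rw [this, sub_self, zero_mul]
      obtain ⟨b, rfl⟩ := h2
      exact ⟨b, rfl⟩
  rw [hsub] at hdiff
  linear_combination -hdiff

theorem cut_LA (hN : NS N n) {χ : M →*₀ ℂ} (h1 : ∀ a, ‖χ a‖ ≤ 1) {s : ℂ} (hs : 3 / 2 ≤ s.re)
    (T : Finset M) : (∀ π ∈ T, Prime π) → LA N (cut T χ) s =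
      (∏ π ∈ T, (1 - χ π * ((N π : ℕ) : ℂ) ^ (-s))) * LA N χ s := by
  classical
  induction T using Finset.induction_on with
  | empty =>
    intro _
    rw [Finset.prod_empty, one_mul]
    have he : cut (∅ : Finset M) χ = χ := by
      funext a
      unfold cut
      rw [if_neg]
      rintro ⟨π, h, -⟩
      exact absurd h (Finset.notMem_empty π)
    rw [he]
  | insert π T hπT ih =>
    intro hT
    rw [cut_step hN (fun π' h => hT π' (Finset.mem_insert_of_mem h))
      (hT π (Finset.mem_insert_self _ _)) hπT h1 hs,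
      ih (fun π' h => hT π' (Finset.mem_insert_of_mem h)), Finset.prod_insert hπT]
    ring

lemma fin_bad (hN : NS N n) {Q : ℕ} (hQ : Q ≠ 0) :
    {π : M | Prime π ∧ ¬ (N π).Coprime Q}.Finite := by
  have h1 : {π : M | Prime π ∧ ¬ (N π).Coprime Q} ⊆
      ⋃ q ∈ Q.primeFactors, {π : M | Prime π ∧ q ∣ N π} := by
    rintro π ⟨h2, h3⟩
    obtain ⟨q, hq, h4, h5⟩ := Nat.Prime.not_coprime_iff_dvd.mp h3
    rw [mem_iUnion₂]
    exact ⟨q, Nat.mem_primeFactors.mpr ⟨hq, h5, hQ⟩, h2, h4⟩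
  refine Set.Finite.subset (Set.Finite.biUnion (Finset.finite_toSet _) ?_) h1
  intro q hq
  have hq' : q ∈ Q.primeFactors := hq
  exact (hN.ab q (Nat.prime_of_mem_primeFactors hq')).1

/-- the primes whose norm is not prime to `Q` -/
noncomputable def SQ (N : M →*₀ ℕ) (Q : ℕ) : Finset M := by
  classical
  exact if h : {π : M | Prime π ∧ ¬ (N π).Coprime Q}.Finite then h.toFinset else ∅

lemma mem_SQ (hN : NS N n) {Q : ℕ} (hQ : Q ≠ 0) {π : M} :
    π ∈ SQ N Q ↔ Prime π ∧ ¬ (N π).Coprime Q := by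
  unfold SQ
  rw [dif_pos (fin_bad hN hQ), Set.Finite.mem_toFinset]
  rfl

lemma cofN_eq_cut (hN : NS N n) {Q : ℕ} (hQ : Q ≠ 0) (χ : M →*₀ ℂ) :
    (cofN N Q χ : M → ℂ) = cut (SQ N Q) χ := by
  classical
  funext a
  rw [cofN_apply]
  unfold cut
  by_cases ha : a = 0
  · rw [ha, map_zero χ]
    simp
  by_cases h : (N a).Coprime Q
  · rw [if_pos h, if_neg]
    rintro ⟨π, h1, h2⟩
    rw [mem_SQ hN hQ] at h1
    exact h1.2 (Nat.Coprime.coprime_dvd_left (NS.dvd N h2) h)
  · rw [if_neg h, if_pos]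
    obtain ⟨q, hq, h4, h5⟩ := Nat.Prime.not_coprime_iff_dvd.mp h
    obtain ⟨π, h6, h7, h8⟩ : ∃ π : M, Prime π ∧ π ∣ a ∧ q ∣ N π := by
      clear h
      induction a using UniqueFactorizationMonoid.induction_on_prime with
      | h₁ => exact absurd rfl ha
      | h₂ x hx =>
        exfalso
        obtain ⟨u, rfl⟩ := hx
        rw [Subsingleton.elim u 1, Units.val_one, map_one] at h4
        exact hq.one_lt.ne' (Nat.dvd_one.mp h4)
      | h₃ b p hb hp ih =>
        rw [map_mul] at h4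
        rcases (Nat.Prime.dvd_mul hq).mp h4 with h9 | h9
        · exact ⟨p, hp, dvd_mul_right p b, h9⟩
        · obtain ⟨π, h10, h11, h12⟩ := ih hb h9
          exact ⟨π, h10, h11.mul_left p, h12⟩
    refine ⟨π, (mem_SQ hN hQ).mpr ⟨h6, ?_⟩, h7⟩
    rw [Nat.Prime.not_coprime_iff_dvd]
    exact ⟨q, hq, h8, h5⟩

/-- the product of the local factors removed -/
noncomputable def HQ (N : M →*₀ ℕ) (Q : ℕ) (χ : M →*₀ ℂ) (s : ℂ) : ℂ :=
  ∏ π ∈ SQ N Q, (1 - χ π * ((N π : ℕ) : ℂ) ^ (-s))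

theorem LA_cofN (hN : NS N n) {Q : ℕ} (hQ : Q ≠ 0) {χ : M →*₀ ℂ} (h1 : ∀ a, ‖χ a‖ ≤ 1) {s : ℂ}
    (hs : 3 / 2 ≤ s.re) : LA N (cofN N Q χ) s = HQ N Q χ s * LA N χ s := by
  rw [cofN_eq_cut hN hQ]
  exact cut_LA hN h1 hs _ (fun π hπ => ((mem_SQ hN hQ).mp hπ).1)

lemma HQ_diff (hN : NS N n) {Q : ℕ} (hQ : Q ≠ 0) (χ : M →*₀ ℂ) : Differentiable ℂ (HQ N Q χ) := by
  unfold HQ
  apply Differentiable.fun_finsetProd
  intro π hπ
  have h1 : ((N π : ℕ) : ℂ) ≠ 0 := by
    exact_mod_cast (hN.pos ((mem_SQ hN hQ).mp hπ).1.ne_zero).ne'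
  refine (differentiable_const _).sub ((differentiable_const _).mul ?_)
  exact (differentiable_id.neg).const_cpow (Or.inl h1)

end one

end Pool.Agent.T9h53.EQ
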