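import Pool.Agent.T9h53.SZ.Sum
import Pool.Agent.T9h53.SZ.Block

/-! # A window which decays doubly exponentially -/

set_option autoImplicit false

open Complex Filter Topology Set MeasureTheory

namespace Pool.Agent.T9h53.EQ

open Pool.Agent.T9h53.SZ

/-- the kernel -/
noncomputable def kw (a c v : ℝ) : ℂ := cexp (-Complex.cos ((a : ℂ) * (⟨c, v⟩ : ℂ)))

/-- the window of `F` on the line `Re z = c` at height `t` -/
noncomputable def VW (F : ℂ → ℂ) (a Y t c : ℝ) : ℂ := ∫ v in (-Y)..Y, F ⟨c, t + v⟩ * kw a c v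

lemma kw_norm (a c v : ℝ) : ‖kw a c v‖ = Real.exp (-(Real.cos (a * c) * Real.cosh (a * v))) := by
  unfold kw
  rw [Complex.norm_exp]
  congr 1
  rw [mk_eq, show (a : ℂ) * ((c : ℂ) + v * I) = ((a * c : ℝ) : ℂ) + ((a * v : ℝ) : ℂ) * I by
    push_cast; ring, Complex.cos_add_mul_I, ← Complex.ofReal_cos, ← Complex.ofReal_cosh,
    ← Complex.ofReal_sin, ← Complex.ofReal_sinh, neg_re, sub_re, ← Complex.ofReal_mul,
    ← Complex.ofReal_mul, re_ofReal_mul, I_re, ofReal_re]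
  ring

lemma kw_le {a c : ℝ} (v : ℝ) (hc : |a * c| ≤ 1) :
    ‖kw a c v‖ ≤ Real.exp (-(Real.cosh (a * v) / 2)) := by
  rw [kw_norm]
  apply Real.exp_le_exp.mpr
  have h1 := Real.one_sub_sq_div_two_le_cos (x := a * c)
  have h2 : (a * c) ^ 2 ≤ 1 := by
    rw [← sq_abs]
    exact pow_le_one₀ (abs_nonneg _) hc
  have h3 : 1 / 2 ≤ Real.cos (a * c) := by linarith
  have h4 := Real.cosh_pos (a * v)
  nlinarith

lemma kw_le_one {a c : ℝ} (v : ℝ) (hc : |a * c| ≤ 1) : ‖kw a c v‖ ≤ 1 := by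
  refine (kw_le v hc).trans ?_
  rw [Real.exp_le_one_iff]
  have := Real.cosh_pos (a * v)
  linarith

lemma kw_cont (a c : ℝ) : Continuous (fun v : ℝ => kw a c v) := by
  unfold kw
  simp only [mk_eq]
  fun_prop

lemma sq_le_cosh (x : ℝ) : x ^ 2 / 4 ≤ Real.cosh x := by
  have h := Real.quadratic_le_exp_of_nonneg (abs_nonneg x)
  rw [← Real.cosh_abs, Real.cosh_eq]
  have h3 := Real.add_one_le_exp (-|x|)
  rw [sq_abs] at h
  linarith

/-- the mass of the kernel -/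
lemma kw_mass {a Y : ℝ} (ha : 0 < a) (hY : 0 ≤ Y) :
    ∫ v in (-Y)..Y, Real.exp (-(Real.cosh (a * v) / 2)) ≤ 6 / a := by
  have h1 : ∫ v in (-Y)..Y, Real.exp (-(Real.cosh (a * v) / 2)) ≤
      ∫ v in (-Y)..Y, Real.exp (-(v ^ 2 / (3 / a) ^ 2)) := by
    apply intervalIntegral.integral_mono_on (by linarith)
    · apply Continuous.intervalIntegrable
      have := Real.continuous_cosh
      fun_prop
    · apply Continuous.intervalIntegrable
      fun_prop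
    · intro v _
      apply Real.exp_le_exp.mpr
      have h2 := sq_le_cosh (a * v)
      have h3 : v ^ 2 / (3 / a) ^ 2 = (a * v) ^ 2 / 9 := by field_simp; ring
      rw [h3]
      nlinarith [sq_nonneg (a * v)]
  refine h1.trans ((gauss_le_two (by positivity) hY).trans (le_of_eq ?_))
  ring

lemma VW_le {F : ℂ → ℂ} {a Y t c B : ℝ} (ha : 0 < a) (hY : 0 ≤ Y) (hc : |a * c| ≤ 1) (hB : 0 ≤ B)
    (h : ∀ v : ℝ, -Y ≤ v → v ≤ Y → ‖F ⟨c, t + v⟩‖ ≤ B) : ‖VW F a Y t c‖ ≤ B * (6 / a) := by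
  unfold VW
  have hcont : Continuous fun v : ℝ => B * Real.exp (-(Real.cosh (a * v) / 2)) := by
    have := Real.continuous_cosh
    fun_prop
  have h1 : ‖∫ v in (-Y)..Y, F ⟨c, t + v⟩ * kw a c v‖ ≤
      ∫ v in (-Y)..Y, B * Real.exp (-(Real.cosh (a * v) / 2)) := by
    apply intervalIntegral.norm_integral_le_of_norm_le (by linarith)
    · refine Filter.Eventually.of_forall fun v hv => ?_
      rw [norm_mul]
      exact mul_le_mul (h v hv.1.le hv.2) (kw_le v hc) (norm_nonneg _) hB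
    · exact hcont.intervalIntegrable _ _
  refine h1.trans ?_
  rw [intervalIntegral.integral_const_mul]
  exact mul_le_mul_of_nonneg_left (kw_mass ha hY) hB

/-- **the shift lemma** -/
theorem VW_shift {F : ℂ → ℂ} {a Y t c₁ c₂ B : ℝ} (hY : 0 ≤ Y) (hc : c₁ ≤ c₂)
    (ha1 : |a * c₁| ≤ 1) (ha2 : |a * c₂| ≤ 1) (ha : 0 ≤ a)
    (hF : ∀ z : ℂ, c₁ ≤ z.re → z.re ≤ c₂ → t - Y ≤ z.im → z.im ≤ t + Y → DifferentiableAt ℂ F z)
    (h1 : ∀ c : ℝ, c₁ ≤ c → c ≤ c₂ → ‖F ⟨c, t + -Y⟩‖ ≤ B)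
    (h2 : ∀ c : ℝ, c₁ ≤ c → c ≤ c₂ → ‖F ⟨c, t + Y⟩‖ ≤ B) :
    ‖VW F a Y t c₂ - VW F a Y t c₁‖ ≤ 2 * (B * Real.exp (-(Real.cosh (a * Y) / 2)) * (c₂ - c₁)) := by
  set f : ℂ → ℂ := fun u => F (u + t * I) * cexp (-Complex.cos ((a : ℂ) * u)) with hf
  have hd : DifferentiableOn ℂ f (Set.uIcc (⟨c₁, -Y⟩ : ℂ).re (⟨c₂, Y⟩ : ℂ).re ×ℂ
      Set.uIcc (⟨c₁, -Y⟩ : ℂ).im (⟨c₂, Y⟩ : ℂ).im) := by
    intro u hu
    simp only [uIcc_of_le hc, uIcc_of_le (show -Y ≤ Y by linarith)] at hu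
    obtain ⟨⟨h1, h2⟩, ⟨h3, h4⟩⟩ := hu
    have e1 := hF (u + t * I) (by simpa using h1) (by simpa using h2) (by simp; linarith)
      (by simp; linarith)
    apply DifferentiableAt.differentiableWithinAt
    rw [hf]
    refine DifferentiableAt.mul ?_ (by fun_prop)
    exact DifferentiableAt.comp u (g := F) (f := fun u => u + t * I) e1 (by fun_prop)
  have h := Complex.integral_boundary_rect_eq_zero_of_differentiableOn f ⟨c₁, -Y⟩ ⟨c₂, Y⟩ hd
  have e1 : ∀ c v : ℝ, f (c + v * I) = F ⟨c, t + v⟩ * kw a c v := by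
    intro c v
    rw [hf]
    simp only [kw, mk_eq]
    congr 2
    push_cast
    ring
  simp only [e1, smul_eq_mul] at h
  have hmem : ∀ c : ℝ, c₁ ≤ c → c ≤ c₂ → |a * c| ≤ 1 := by
    intro c k1 k2
    have m1 := (abs_le.mp ha1).1
    have m2 := (abs_le.mp ha2).2
    exact abs_le.mpr ⟨by nlinarith, by nlinarith⟩
  have heq : VW F a Y t c₂ - VW F a Y t c₁ =
      I * ((∫ c in c₁..c₂, F ⟨c, t + -Y⟩ * kw a c (-Y)) -
        ∫ c in c₁..c₂, F ⟨c, t + Y⟩ * kw a c Y) := by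
    unfold VW
    set A := ∫ c in c₁..c₂, F ⟨c, t + -Y⟩ * kw a c (-Y)
    set B := ∫ c in c₁..c₂, F ⟨c, t + Y⟩ * kw a c Y
    set P := ∫ v in (-Y)..Y, F ⟨c₂, t + v⟩ * kw a c₂ v
    set Q := ∫ v in (-Y)..Y, F ⟨c₁, t + v⟩ * kw a c₁ v
    have h2 : I * (P - Q) = -(A - B) := by linear_combination h
    have h3 : P - Q = -(I * (I * (P - Q))) := by
      rw [← mul_assoc, I_mul_I]
      ring
    rw [h3, h2]
    ring
  rw [heq, norm_mul, norm_I, one_mul]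
  refine (norm_sub_le _ _).trans ?_
  have hedge : ∀ (s c : ℝ), c₁ ≤ c → c ≤ c₂ → s = Y ∨ s = -Y →
      ‖kw a c s‖ ≤ Real.exp (-(Real.cosh (a * Y) / 2)) := by
    intro s c k1 k2 hs
    have e2 := kw_le s (hmem c k1 k2)
    rcases hs with hs | hs
    · rwa [hs] at e2 ⊢
    · rw [hs] at e2 ⊢
      have e3 : Real.cosh (a * -Y) = Real.cosh (a * Y) := by
        rw [mul_neg, Real.cosh_neg]
      rwa [e3] at e2
  have k1 : ‖∫ c in c₁..c₂, F ⟨c, t + -Y⟩ * kw a c (-Y)‖ ≤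
      (B * Real.exp (-(Real.cosh (a * Y) / 2))) * |c₂ - c₁| := by
    apply intervalIntegral.norm_integral_le_of_norm_le_const
    intro c hc'
    rw [uIoc_of_le hc] at hc'
    rw [norm_mul]
    have e4 := h1 c hc'.1.le hc'.2
    exact mul_le_mul e4 (hedge _ c hc'.1.le hc'.2 (Or.inr rfl)) (norm_nonneg _)
      ((norm_nonneg _).trans e4)
  have k2 : ‖∫ c in c₁..c₂, F ⟨c, t + Y⟩ * kw a c Y‖ ≤
      (B * Real.exp (-(Real.cosh (a * Y) / 2))) * |c₂ - c₁| := by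
    apply intervalIntegral.norm_integral_le_of_norm_le_const
    intro c hc'
    rw [uIoc_of_le hc] at hc'
    rw [norm_mul]
    have e4 := h2 c hc'.1.le hc'.2
    exact mul_le_mul e4 (hedge _ c hc'.1.le hc'.2 (Or.inl rfl)) (norm_nonneg _)
      ((norm_nonneg _).trans e4)
  rw [abs_of_nonneg (by linarith)] at k1 k2
  linarith

end Pool.Agent.T9h53.EQ
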