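import Pool.Agent.T9h53.EQ.Imp

/-! # Local factors -/

set_option autoImplicit false
set_option linter.unusedSectionVars false

open Complex Filter Topology Set MeasureTheory

namespace Pool.Agent.T9h53.EQ

open Pool.Agent.T9h53.SZ Pool.Agent.T9h53.SG Pool.Agent.T9h53.AP
open Pool.Agent.T9h27.D
open Pool.Agent.N786.D (mob)

/-- two analytic functions which agree on a vertical line -/
lemma line_ident {U : Set ℂ} (hUp : IsPreconnected U) {f g : ℂ → ℂ} (hf : AnalyticOnNhd ℂ f U)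
    (hg : AnalyticOnNhd ℂ g U) {y₀ : ℝ} (h₀ : (⟨1, y₀⟩ : ℂ) ∈ U) (h : ∀ z : ℂ, z.re = 1 → f z = g z) :
    EqOn f g U := by
  have hfreq : ∃ᶠ z in 𝓝[≠] (⟨1, y₀⟩ : ℂ), f z = g z := by
    have hcont : Continuous (fun y : ℝ => (⟨1, y⟩ : ℂ)) := by
      have : (fun y : ℝ => (⟨1, y⟩ : ℂ)) = fun y : ℝ => ((1 : ℝ) : ℂ) + y * I := by
        funext y
        rw [mk_eq]
      rw [this]
      fun_prop
    have ht : Tendsto (fun y : ℝ => (⟨1, y⟩ : ℂ)) (𝓝[≠] y₀) (𝓝[≠] (⟨1, y₀⟩ : ℂ)) := by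
      refine tendsto_nhdsWithin_of_tendsto_nhds_of_eventually_within _
        (hcont.continuousAt.tendsto.mono_left nhdsWithin_le_nhds) ?_
      filter_upwards [self_mem_nhdsWithin] with y hy
      intro h
      apply hy
      have := congrArg Complex.im h
      simpa using this
    refine ht.frequently ?_
    exact Filter.Frequently.of_forall fun y => h _ rfl
  exact hf.eqOn_of_preconnected_of_frequently_eq hg hUp h₀ hfreq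

section two

variable {M₁ : Type} [CommMonoidWithZero M₁] [NormalizationMonoid M₁]
  [UniqueFactorizationMonoid M₁] [Subsingleton M₁ˣ] [Nontrivial M₁] {N₁ : M₁ →*₀ ℕ} {n₁ : ℕ}
  {M₂ : Type} [CommMonoidWithZero M₂] [NormalizationMonoid M₂]
  [UniqueFactorizationMonoid M₂] [Subsingleton M₂ˣ] [Nontrivial M₂] {N₂ : M₂ →*₀ ℕ} {n₂ : ℕ}
  {χ₁ : M₁ →*₀ ℂ} {χ₂ : M₂ →*₀ ℂ}

lemma cq_cof (Q : ℕ) (δ : ℝ) (p : M₂ × M₁) :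
    cq N₁ N₂ (cofN N₁ Q χ₁) (cofN N₂ Q χ₂) δ p =
      if (N₂ p.1).Coprime Q ∧ (N₁ p.2).Coprime Q then cq N₁ N₂ χ₁ χ₂ δ p else 0 := by
  unfold cq ca
  simp only [cofN_apply]
  by_cases h1 : (N₂ p.1).Coprime Q
  · by_cases h2 : (N₁ p.2).Coprime Q
    · rw [if_pos h1, if_pos h2, if_pos ⟨h1, h2⟩]
    · rw [if_neg h2, if_neg (c := (N₂ p.1).Coprime Q ∧ (N₁ p.2).Coprime Q) (fun h => h2 h.2),
        mul_zero, zero_mul, mul_zero]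
  · rw [if_neg h1, if_neg (c := (N₂ p.1).Coprime Q ∧ (N₁ p.2).Coprime Q) (fun h => h1 h.1),
      zero_mul, zero_mul]

lemma FB_ne (hN₁ : NS N₁ n₁) (hN₂ : NS N₂ n₂) {α β lam : ℝ} (hα : 1 ≤ α) (hβ : 1 ≤ β)
    (hlam : 0 ≤ lam) {p : M₂ × M₁} (hp : p ∈ FB N₁ N₂ α β lam) :
    p.1 ≠ 0 ∧ p.2 ≠ 0 ∧ nq N₁ N₂ α β p = lam := by
  unfold FB at hp
  rw [Finset.mem_filter, mem_UA hN₁ hN₂ hα hβ (Real.one_le_exp (by linarith))] at hp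
  exact ⟨hp.1.1, hp.1.2.1, hp.2⟩

/-- the integer of a pair -/
def mq (N₁ : M₁ →*₀ ℕ) (N₂ : M₂ →*₀ ℕ) (m₁ m₂ : ℕ) (p : M₂ × M₁) : ℕ :=
  N₂ p.1 ^ m₁ * N₁ p.2 ^ m₂

lemma mq_pos (hN₁ : NS N₁ n₁) (hN₂ : NS N₂ n₂) (m₁ m₂ : ℕ) {p : M₂ × M₁} (h1 : p.1 ≠ 0)
    (h2 : p.2 ≠ 0) : 0 < mq N₁ N₂ m₁ m₂ p := by
  have k1 := hN₂.pos h1
  have k2 := hN₁.pos h2
  unfold mq
  positivity

lemma log_mq (hN₁ : NS N₁ n₁) (hN₂ : NS N₂ n₂) {α β : ℝ} {m₁ m₂ : ℕ} (hα : 1 ≤ α)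
    (hd : α * m₂ = β * m₁) {p : M₂ × M₁} (h1 : p.1 ≠ 0) (h2 : p.2 ≠ 0) :
    Real.log (mq N₁ N₂ m₁ m₂ p) = m₁ / α * nq N₁ N₂ α β p := by
  have k1 : (N₂ p.1 : ℝ) ≠ 0 := by exact_mod_cast (hN₂.pos h1).ne'
  have k2 : (N₁ p.2 : ℝ) ≠ 0 := by exact_mod_cast (hN₁.pos h2).ne'
  unfold mq nq
  push_cast
  rw [Real.log_mul (pow_ne_zero _ k1) (pow_ne_zero _ k2), Real.log_pow, Real.log_pow]
  have hα0 : α ≠ 0 := by linarith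
  field_simp
  linear_combination (Real.log (N₁ p.2)) * hd

lemma mq_coprime {m₁ m₂ Q : ℕ} (hm₁ : m₁ ≠ 0) (hm₂ : m₂ ≠ 0) (p : M₂ × M₁) :
    (mq N₁ N₂ m₁ m₂ p).Coprime Q ↔ (N₂ p.1).Coprime Q ∧ (N₁ p.2).Coprime Q := by
  unfold mq
  rw [Nat.coprime_mul_iff_left, Nat.coprime_pow_left_iff (Nat.pos_of_ne_zero hm₁),
    Nat.coprime_pow_left_iff (Nat.pos_of_ne_zero hm₂)]

/-- the coefficients of the imprimitive characters -/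
lemma agg_cof (hN₁ : NS N₁ n₁) (hN₂ : NS N₂ n₂) {α β : ℝ} {m₁ m₂ : ℕ} (hm₁ : m₁ ≠ 0)
    (hm₂ : m₂ ≠ 0) (hα : 1 ≤ α) (hβ : 1 ≤ β) (hd : α * m₂ = β * m₁) (Q : ℕ) (δ : ℝ) {lam : ℝ}
    (hlam : 0 ≤ lam) :
    (agg N₁ N₂ (cofN N₁ Q χ₁) (cofN N₂ Q χ₂) α β δ lam = agg N₁ N₂ χ₁ χ₂ α β δ lam ∧
      ∀ p ∈ FB N₁ N₂ α β lam, (mq N₁ N₂ m₁ m₂ p).Coprime Q) ∨
    (agg N₁ N₂ (cofN N₁ Q χ₁) (cofN N₂ Q χ₂) α β δ lam = 0 ∧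
      ∀ p ∈ FB N₁ N₂ α β lam, ¬ (mq N₁ N₂ m₁ m₂ p).Coprime Q) := by
  have hconst : ∀ p ∈ FB N₁ N₂ α β lam, ∀ p' ∈ FB N₁ N₂ α β lam,
      mq N₁ N₂ m₁ m₂ p = mq N₁ N₂ m₁ m₂ p' := by
    intro p hp p' hp'
    obtain ⟨h1, h2, h3⟩ := FB_ne hN₁ hN₂ hα hβ hlam hp
    obtain ⟨h4, h5, h6⟩ := FB_ne hN₁ hN₂ hα hβ hlam hp'
    have e1 := log_mq hN₁ hN₂ hα hd h1 h2
    have e2 := log_mq hN₁ hN₂ hα hd h4 h5
    rw [h3] at e1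
    rw [h6, ← e1] at e2
    have k1 := mq_pos hN₁ hN₂ m₁ m₂ h1 h2
    have k2 := mq_pos hN₁ hN₂ m₁ m₂ h4 h5
    have := Real.log_injOn_pos (mem_Ioi.mpr (by exact_mod_cast k1))
      (mem_Ioi.mpr (by exact_mod_cast k2)) e2.symm
    exact_mod_cast this
  by_cases h : ∀ p ∈ FB N₁ N₂ α β lam, (mq N₁ N₂ m₁ m₂ p).Coprime Q
  · left
    refine ⟨?_, h⟩
    unfold agg
    refine Finset.sum_congr rfl fun p hp => ?_
    rw [cq_cof, if_pos ((mq_coprime hm₁ hm₂ p).mp (h p hp))]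
  · right
    push Not at h
    obtain ⟨p₀, hp₀, h0⟩ := h
    have h2 : ∀ p ∈ FB N₁ N₂ α β lam, ¬ (mq N₁ N₂ m₁ m₂ p).Coprime Q := by
      intro p hp
      rw [hconst p hp p₀ hp₀]
      exact h0
    refine ⟨?_, h2⟩
    unfold agg
    refine Finset.sum_eq_zero fun p hp => ?_
    rw [cq_cof, if_neg (fun h' => h2 p hp ((mq_coprime hm₁ hm₂ p).mpr h'))]

/-- no change for a large prime -/
lemma agg_prime (hN₁ : NS N₁ n₁) (hN₂ : NS N₂ n₂) {α β : ℝ} {m₁ m₂ : ℕ} (hm₁ : m₁ ≠ 0)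
    (hm₂ : m₂ ≠ 0) (hα : 1 ≤ α) (hβ : 1 ≤ β) (hd : α * m₂ = β * m₁) {δ E : ℝ}
    (hagg : ∀ lam : ℝ, 0 ≤ lam → E < lam → agg N₁ N₂ χ₁ χ₂ α β δ lam = 0) {q : ℕ} (hq : q.Prime)
    (hqE : Real.exp (m₁ / α * E) < q) {lam : ℝ} (hlam : 0 ≤ lam) :
    agg N₁ N₂ (cofN N₁ q χ₁) (cofN N₂ q χ₂) α β δ lam = agg N₁ N₂ χ₁ χ₂ α β δ lam := by
  rcases agg_cof (χ₁ := χ₁) (χ₂ := χ₂) hN₁ hN₂ hm₁ hm₂ hα hβ hd q δ hlam with ⟨h, -⟩ | ⟨h, h2⟩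
  · exact h
  · rw [h]
    by_cases hE : E < lam
    · rw [hagg lam hlam hE]
    push Not at hE
    unfold agg
    symm
    apply Finset.sum_eq_zero
    intro p hp
    exfalso
    apply h2 p hp
    obtain ⟨k1, k2, k3⟩ := FB_ne hN₁ hN₂ hα hβ hlam hp
    have e1 := log_mq hN₁ hN₂ hα hd k1 k2
    have k4 := mq_pos hN₁ hN₂ m₁ m₂ k1 k2
    have k5 : ((mq N₁ N₂ m₁ m₂ p : ℕ) : ℝ) < q := by
      refine lt_of_le_of_lt ?_ hqE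
      rw [← Real.log_le_iff_le_exp (by exact_mod_cast k4), e1, k3]
      have hα0 : 0 < α := by linarith
      gcongr
    have k6 : mq N₁ N₂ m₁ m₂ p < q := by exact_mod_cast k5
    exact Nat.Coprime.symm ((Nat.Prime.coprime_iff_not_dvd hq).mpr
      (fun hdvd => absurd (Nat.le_of_dvd k4 hdvd) (by omega)))

/-- only the first coefficient survives for a large modulus -/
lemma agg_big (hN₁ : NS N₁ n₁) (hN₂ : NS N₂ n₂) {α β : ℝ} {m₁ m₂ : ℕ} (hm₁ : m₁ ≠ 0)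
    (hm₂ : m₂ ≠ 0) (hα : 1 ≤ α) (hβ : 1 ≤ β) (hd : α * m₂ = β * m₁) {δ E : ℝ}
    (hagg : ∀ lam : ℝ, 0 ≤ lam → E < lam → agg N₁ N₂ χ₁ χ₂ α β δ lam = 0) {Q : ℕ}
    (hQ : ∀ q : ℕ, q.Prime → (q : ℝ) ≤ Real.exp (m₁ / α * E) → q ∣ Q) {lam : ℝ} (hlam : 0 < lam) :
    agg N₁ N₂ (cofN N₁ Q χ₁) (cofN N₂ Q χ₂) α β δ lam = 0 := by
  rcases agg_cof (χ₁ := χ₁) (χ₂ := χ₂) hN₁ hN₂ hm₁ hm₂ hα hβ hd Q δ hlam.le with
    ⟨h, h2⟩ | ⟨h, -⟩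
  · rw [h]
    by_cases hE : E < lam
    · rw [hagg lam hlam.le hE]
    push Not at hE
    unfold agg
    apply Finset.sum_eq_zero
    intro p hp
    exfalso
    have h3 := h2 p hp
    obtain ⟨k1, k2, k3⟩ := FB_ne hN₁ hN₂ hα hβ hlam.le hp
    have e1 := log_mq hN₁ hN₂ hα hd k1 k2
    have k4 := mq_pos hN₁ hN₂ m₁ m₂ k1 k2
    have hα0 : 0 < α := by linarith
    have hm₁' : (0 : ℝ) < m₁ := by exact_mod_cast Nat.pos_of_ne_zero hm₁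
    have k5 : ((mq N₁ N₂ m₁ m₂ p : ℕ) : ℝ) ≤ Real.exp (m₁ / α * E) := by
      rw [← Real.log_le_iff_le_exp (by exact_mod_cast k4), e1, k3]
      gcongr
    have k6 : mq N₁ N₂ m₁ m₂ p ≠ 1 := by
      intro h4
      rw [h4, Nat.cast_one, Real.log_one, k3] at e1
      have : 0 < m₁ / α * lam := by positivity
      linarith
    obtain ⟨q, hq, hqd⟩ := Nat.exists_prime_and_dvd k6
    have k7 : (q : ℝ) ≤ Real.exp (m₁ / α * E) := by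
      refine le_trans ?_ k5
      exact_mod_cast Nat.le_of_dvd k4 hqd
    have k8 := hQ q hq k7
    exact (Nat.Prime.not_coprime_iff_dvd.mpr ⟨q, hq, hqd, k8⟩) h3
  · exact h

lemma agg_nil (hN₁ : NS N₁ n₁) (hN₂ : NS N₂ n₂) {α β : ℝ} (δ : ℝ) (hα : 1 ≤ α) (hβ : 1 ≤ β) :
    agg N₁ N₂ χ₁ χ₂ α β δ 0 = 1 := by
  classical
  have hm : mob (1 : M₁) = 1 := by
    unfold mob
    rw [if_pos (by simp)]
    simp
  have h1 : cq N₁ N₂ χ₁ χ₂ δ (1, 1) = 1 := by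
    unfold cq ca
    simp [hm]
  have h2 : ∀ p ∈ FB N₁ N₂ α β 0, p ≠ (1, 1) → cq N₁ N₂ χ₁ χ₂ δ p = 0 := by
    intro p hp hne
    by_contra hc
    have h3 := nq_gap hN₁ hN₂ δ hα hβ hc hne
    obtain ⟨-, -, k3⟩ := FB_ne hN₁ hN₂ hα hβ le_rfl hp
    rw [k3, sub_zero, abs_zero] at h3
    have := Real.log_pos (by norm_num : (1 : ℝ) < 2)
    linarith
  unfold agg
  rw [Finset.sum_eq_single (1, 1) h2, h1]
  intro h3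
  exfalso
  apply h3
  apply mem_FB (χ₁ := χ₁) (χ₂ := χ₂) (δ := δ) hN₁ hN₂ hα hβ
  · rw [h1]
    exact one_ne_zero
  · exact nq_one α β

lemma agg_neg (hN₁ : NS N₁ n₁) (hN₂ : NS N₂ n₂) {α β : ℝ} (δ : ℝ) (hα : 1 ≤ α) (hβ : 1 ≤ β)
    {lam : ℝ} (hlam : lam < 0) : agg N₁ N₂ χ₁ χ₂ α β δ lam = 0 := by
  by_contra hne
  have hne2 : ∃ p ∈ FB N₁ N₂ α β lam, cq N₁ N₂ χ₁ χ₂ δ p ≠ 0 := by
    by_contra hcon
    push Not at hcon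
    exact hne (Finset.sum_eq_zero hcon)
  obtain ⟨p, hp, hc⟩ := hne2
  have hp2 : nq N₁ N₂ α β p = lam := by
    unfold FB at hp
    exact (Finset.mem_filter.mp hp).2
  obtain ⟨h1, h2⟩ := cq_zero δ hc
  have h3 := nq_nonneg hN₁ hN₂ (by linarith : 0 ≤ α) (by linarith : 0 ≤ β) h1 h2
  linarith

/-- the series on the line `Re z = 1` -/
lemma line_gen (hN₁ : NS N₁ n₁) (hN₂ : NS N₂ n₂) (h₁ : ∀ a, ‖χ₁ a‖ ≤ 1) (h₂ : ∀ a, ‖χ₂ a‖ ≤ 1)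
    {α β : ℝ} (δ : ℝ) (hα : 1 ≤ α) (hβ : 1 ≤ β) {S : Finset ℝ}
    (hS : ∀ lam ∉ S, agg N₁ N₂ χ₁ χ₂ α β δ lam = 0) {z : ℂ} (hz : z.re = 1) :
    LA N₂ χ₂ (1 / 2 + δ * I + α * z) = (∑ lam ∈ S,
      agg N₁ N₂ χ₁ χ₂ α β δ lam * cexp (-(lam : ℂ) * z)) * LA N₁ χ₁ (1 / 2 + β * z) := by
  obtain ⟨hsum, -⟩ := cq_summable hN₁ hN₂ h₁ h₂ δ hα hβ
  have hs : Summable fun p => cq N₁ N₂ χ₁ χ₂ δ p * cexp (-(nq N₁ N₂ α β p : ℂ) * z) := by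
    refine Summable.of_norm (hsum.congr fun p => ?_)
    rw [norm_mul, Complex.norm_exp, ← ofReal_neg, re_ofReal_mul, hz, mul_one]
  have h3 := hs.hasSum.tsum_fiberwise (nq N₁ N₂ α β)
  simp only [fiber_tsum hN₁ hN₂ δ hα hβ z] at h3
  have h4 : HasSum (fun lam : ℝ => agg N₁ N₂ χ₁ χ₂ α β δ lam * cexp (-(lam : ℂ) * z))
      (∑ lam ∈ S, agg N₁ N₂ χ₁ χ₂ α β δ lam * cexp (-(lam : ℂ) * z)) :=
    hasSum_sum_of_ne_finset_zero (fun lam hl => by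
      rw [hS lam hl, zero_mul])
  have h5 := h3.unique h4
  have h6 := quot_series hN₁ hN₂ h₁ h₂ (F₁ := LA N₁ χ₁) (F₂ := LA N₂ χ₂) (fun s _ => rfl)
    (fun s _ => rfl) δ hα hβ hz
  rw [h5] at h6
  have h7 : LA N₁ χ₁ (1 / 2 + β * z) ≠ 0 := by
    have hre : 3 / 2 ≤ (1 / 2 + β * z : ℂ).re := by
      simp [hz]
      linarith
    have h8 := LA_low' hN₁ h₁ hre
    have h9 : 0 < (ZN N₁ + 1)⁻¹ := inv_pos.mpr (by have := ZN_nonneg N₁; linarith)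
    exact norm_pos_iff.mp (h9.trans_le h8)
  rw [← h6, div_mul_cancel₀ _ h7]

/-- **the local factors at a large prime agree** -/
theorem HQ_eq (hN₁ : NS N₁ n₁) (hN₂ : NS N₂ n₂) (h₁ : ∀ a, ‖χ₁ a‖ ≤ 1) (h₂ : ∀ a, ‖χ₂ a‖ ≤ 1)
    {α β : ℝ} {m₁ m₂ : ℕ} (hm₁ : m₁ ≠ 0) (hm₂ : m₂ ≠ 0) (hα : 1 ≤ α) (hβ : 1 ≤ β)
    (hd : α * m₂ = β * m₁) {δ E : ℝ}
    (hagg : ∀ lam : ℝ, 0 ≤ lam → E < lam → agg N₁ N₂ χ₁ χ₂ α β δ lam = 0) {q : ℕ} (hq : q.Prime)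
    (hqE : Real.exp (m₁ / α * E) < q) (z : ℂ) :
    HQ N₂ q χ₂ (1 / 2 + δ * I + α * z) = HQ N₁ q χ₁ (1 / 2 + β * z) := by
  have hS : ∀ lam ∉ SE N₁ N₂ α β E, agg N₁ N₂ χ₁ χ₂ α β δ lam = 0 := fun lam hl =>
    agg_zero_of hN₁ hN₂ hα hβ hagg hl
  have haq : ∀ lam : ℝ, agg N₁ N₂ (cofN N₁ q χ₁) (cofN N₂ q χ₂) α β δ lam =
      agg N₁ N₂ χ₁ χ₂ α β δ lam := by
    intro lam
    rcases le_or_gt 0 lam with h | h
    · exact agg_prime hN₁ hN₂ hm₁ hm₂ hα hβ hd hagg hq hqE h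
    · rw [agg_neg hN₁ hN₂ δ hα hβ h, agg_neg hN₁ hN₂ δ hα hβ h]
  have key : ∀ z : ℂ, z.re = 1 → HQ N₂ q χ₂ (1 / 2 + δ * I + α * z) =
      HQ N₁ q χ₁ (1 / 2 + β * z) := by
    intro z hz
    have hre2 : 3 / 2 ≤ (1 / 2 + δ * I + α * z : ℂ).re := by
      simp [hz]
      linarith
    have hre1 : 3 / 2 ≤ (1 / 2 + β * z : ℂ).re := by
      simp [hz]
      linarith
    have e1 := line_gen hN₁ hN₂ h₁ h₂ δ hα hβ hS hz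
    have e2 := line_gen hN₁ hN₂ (cofN_le N₁ q h₁) (cofN_le N₂ q h₂) δ hα hβ
      (S := SE N₁ N₂ α β E) (fun lam hl => by rw [haq, hS lam hl]) hz
    rw [LA_cofN hN₂ hq.ne_zero h₂ hre2, LA_cofN hN₁ hq.ne_zero h₁ hre1] at e2
    simp only [haq] at e2
    have h7 : LA N₂ χ₂ (1 / 2 + δ * I + α * z) ≠ 0 := by
      have h8 := LA_low' hN₂ h₂ hre2
      have h9 : 0 < (ZN N₂ + 1)⁻¹ := inv_pos.mpr (by have := ZN_nonneg N₂; linarith)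
      exact norm_pos_iff.mp (h9.trans_le h8)
    apply mul_right_cancel₀ h7
    rw [e2, e1]
    ring
  have d2 : Differentiable ℂ fun z : ℂ => HQ N₂ q χ₂ (1 / 2 + δ * I + α * z) :=
    (HQ_diff hN₂ hq.ne_zero χ₂).comp (by fun_prop)
  have d1 : Differentiable ℂ fun z : ℂ => HQ N₁ q χ₁ (1 / 2 + β * z) :=
    (HQ_diff hN₁ hq.ne_zero χ₁).comp (by fun_prop)
  have := line_ident (U := univ) (y₀ := 0) isPreconnected_univ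
    (fun z _ => d2.analyticAt z) (fun z _ => d1.analyticAt z) (mem_univ _) key
  exact this (mem_univ z)

variable {ι₁ ι₂ : Type} [Fintype ι₁] [Fintype ι₂] {F₁ F₂ : ℂ → ℂ} {R₁ R₂ : ℝ} {e₁ : ι₁ → ℕ}
  {e₂ : ι₂ → ℕ} {w₁ w₂ : ℂ}

/-- **the functions agree up to finitely many local factors** -/
theorem HF_eq (hN₁ : NS N₁ n₁) (hN₂ : NS N₂ n₂) (h₁ : HU N₁ χ₁ F₁ R₁ e₁ w₁)
    (h₂ : HU N₂ χ₂ F₂ R₂ e₂ w₂) {α β : ℝ} {m₁ m₂ : ℕ} (hm₁ : m₁ ≠ 0) (hm₂ : m₂ ≠ 0) (hα : 1 ≤ α)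
    (hβ : 1 ≤ β) (hd : α * m₂ = β * m₁) {δ E : ℝ}
    (hagg : ∀ lam : ℝ, 0 ≤ lam → E < lam → agg N₁ N₂ χ₁ χ₂ α β δ lam = 0) :
    ∃ Q : ℕ, Q ≠ 0 ∧ ∀ z : ℂ, |δ| < z.im →
    HQ N₂ Q χ₂ (1 / 2 + δ * I + α * z) * F₂ (1 / 2 + δ * I + α * z) =
      HQ N₁ Q χ₁ (1 / 2 + β * z) * F₁ (1 / 2 + β * z) := by
  set X : ℕ := ⌊Real.exp (m₁ / α * E)⌋₊ with hX
  set Q : ℕ := X.factorial with hQdef
  have hQ0 : Q ≠ 0 := Nat.factorial_ne_zero _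
  have hQ : ∀ q : ℕ, q.Prime → (q : ℝ) ≤ Real.exp (m₁ / α * E) → q ∣ Q := by
    intro q hq hqE
    exact Nat.dvd_factorial hq.pos (Nat.le_floor hqE)
  refine ⟨Q, hQ0, ?_⟩
  have haq : ∀ lam ∉ ({0} : Finset ℝ),
      agg N₁ N₂ (cofN N₁ Q χ₁) (cofN N₂ Q χ₂) α β δ lam = 0 := by
    intro lam hl
    rw [Finset.mem_singleton] at hl
    rcases lt_trichotomy lam 0 with h | h | h
    · exact agg_neg hN₁ hN₂ δ hα hβ h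
    · exact absurd h hl
    · exact agg_big hN₁ hN₂ hm₁ hm₂ hα hβ hd hagg hQ h
  have key : ∀ z : ℂ, z.re = 1 →
      HQ N₂ Q χ₂ (1 / 2 + δ * I + α * z) * F₂ (1 / 2 + δ * I + α * z) =
      HQ N₁ Q χ₁ (1 / 2 + β * z) * F₁ (1 / 2 + β * z) := by
    intro z hz
    have hre2 : 3 / 2 ≤ (1 / 2 + δ * I + α * z : ℂ).re := by
      simp [hz]
      linarith
    have hre1 : 3 / 2 ≤ (1 / 2 + β * z : ℂ).re := by
      simp [hz]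
      linarith
    have e2 := line_gen hN₁ hN₂ (cofN_le N₁ Q h₁.le1) (cofN_le N₂ Q h₂.le1) δ hα hβ haq hz
    rw [LA_cofN hN₂ hQ0 h₂.le1 hre2, LA_cofN hN₁ hQ0 h₁.le1 hre1, Finset.sum_singleton,
      agg_nil hN₁ hN₂ δ hα hβ] at e2
    rw [h₂.ser _ hre2, h₁.ser _ hre1, e2]
    simp
  have hδ := abs_nonneg δ
  have hδ1 := neg_abs_le δ
  set U : Set ℂ := {z : ℂ | |δ| < z.im} with hU
  have hUp : IsPreconnected U := (convex_halfSpace_im_gt _).isPreconnected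
  have d2 : Differentiable ℂ fun z : ℂ => HQ N₂ Q χ₂ (1 / 2 + δ * I + α * z) :=
    (HQ_diff hN₂ hQ0 χ₂).comp (by fun_prop)
  have d1 : Differentiable ℂ fun z : ℂ => HQ N₁ Q χ₁ (1 / 2 + β * z) :=
    (HQ_diff hN₁ hQ0 χ₁).comp (by fun_prop)
  have hz₀ : (⟨1, |δ| + 1⟩ : ℂ) ∈ U := by
    show |δ| < |δ| + 1
    linarith
  have := line_ident hUp (f := fun z : ℂ =>
      HQ N₂ Q χ₂ (1 / 2 + δ * I + α * z) * F₂ (1 / 2 + δ * I + α * z))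
    (g := fun z : ℂ => HQ N₁ Q χ₁ (1 / 2 + β * z) * F₁ (1 / 2 + β * z)) (fun z hz => ?_)
    (fun z hz => ?_) hz₀ key
  · intro z hz
    exact this hz
  · have hz' : |δ| < z.im := hz
    have p1 : 0 < z.im := by linarith
    have p2 : 0 < δ + α * z.im := by nlinarith
    exact (d2.analyticAt z).mul (an2 h₂ (α := α) (δ := δ) (z := z) p2)
  · have hz' : |δ| < z.im := hz
    have p1 : 0 < z.im := by linarith
    exact (d1.analyticAt z).mul (an1 h₁ (β := β) (z := z) (mul_pos (by linarith) p1))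

end two

end Pool.Agent.T9h53.EQ
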