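import Pool.Agent.T9h53.EQ.Gam

/-! # Functions which agree up to finitely many local factors -/

set_option autoImplicit false
set_option linter.unusedSectionVars false

open Complex Filter Topology Set

namespace Pool.Agent.T9h53.EQ

open Pool.Agent.T9h53.SZ Pool.Agent.T9h53.SG Pool.Agent.T9h53.AP
open Pool.Agent.T9h27.D

lemma geo_one {u v : ℝ} (h : Tendsto (fun k : ℕ => u ^ k * v) atTop (𝓝 1)) : u = 1 ∧ v = 1 := by
  have h1 : Tendsto (fun k : ℕ => u ^ (k + 1) * v) atTop (𝓝 1) :=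
    h.comp (tendsto_add_atTop_nat 1)
  have h2 : Tendsto (fun k : ℕ => u * (u ^ k * v)) atTop (𝓝 (u * 1)) := h.const_mul u
  have h3 : u = 1 := by
    have h4 : (fun k : ℕ => u ^ (k + 1) * v) = fun k : ℕ => u * (u ^ k * v) := by
      funext k
      ring
    rw [h4] at h1
    have := tendsto_nhds_unique h2 h1
    linarith
  refine ⟨h3, ?_⟩
  rw [h3] at h
  simp only [one_pow, one_mul] at h
  exact tendsto_nhds_unique tendsto_const_nhds h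

section one

variable {M : Type} [CommMonoidWithZero M] [NormalizationMonoid M]
  [UniqueFactorizationMonoid M] [Subsingleton Mˣ] [Nontrivial M] {N : M →*₀ ℕ} {n : ℕ}

/-- the norms of the primes which occur -/
noncomputable def dN (N : M →*₀ ℕ) (χ : M →*₀ ℂ) (π : M) : ℝ := by
  classical
  exact if χ π = 0 then 1 else (N π : ℝ)

/-- their product -/
noncomputable def DQ (N : M →*₀ ℕ) (Q : ℕ) (χ : M →*₀ ℂ) : ℝ := ∏ π ∈ SQ N Q, dN N χ π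

lemma dN_pos (hN : NS N n) (χ : M →*₀ ℂ) {π : M} (hπ : Prime π) : 0 < dN N χ π := by
  unfold dN
  split_ifs
  · exact one_pos
  · exact_mod_cast hN.pos hπ.ne_zero

lemma DQ_pos (hN : NS N n) {Q : ℕ} (hQ : Q ≠ 0) (χ : M →*₀ ℂ) : 0 < DQ N Q χ :=
  Finset.prod_pos fun _ hπ => dN_pos hN χ ((mem_SQ hN hQ).mp hπ).1

lemma HQ_right (hN : NS N n) {Q : ℕ} (hQ : Q ≠ 0) {χ : M →*₀ ℂ} (h1 : ∀ a, ‖χ a‖ ≤ 1) :
    Tendsto (fun k : ℕ => ‖HQ N Q χ (sk k)‖) atTop (𝓝 1) := by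
  have h3 : Tendsto (fun k : ℕ => ∏ π ∈ SQ N Q, ‖1 - χ π * ((N π : ℕ) : ℂ) ^ (-sk k)‖) atTop
      (𝓝 (∏ π ∈ SQ N Q, (1 : ℝ))) := by
    refine tendsto_finsetProd _ fun π hπ => ?_
    have hp := ((mem_SQ hN hQ).mp hπ).1
    have h2 : (2 : ℝ) ≤ N π := by exact_mod_cast hN.two_le hp
    have h4 : Tendsto (fun k : ℕ => χ π * ((N π : ℕ) : ℂ) ^ (-sk k)) atTop (𝓝 0) := by
      rw [tendsto_zero_iff_norm_tendsto_zero]
      refine squeeze_zero (fun k => norm_nonneg _) (g := fun k : ℕ => (1 / 2 : ℝ) ^ k)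
        (fun k => ?_) (tendsto_pow_atTop_nhds_zero_of_lt_one (by norm_num) (by norm_num))
      rw [norm_mul, Complex.norm_natCast_cpow_of_pos (hN.pos hp.ne_zero)]
      have e1 : (-sk k).re = -(1 / 2 + k) := by
        unfold sk
        simp
      rw [e1]
      calc ‖χ π‖ * (N π : ℝ) ^ (-(1 / 2 + k) : ℝ) ≤ 1 * (N π : ℝ) ^ (-(k : ℝ)) := by
            apply mul_le_mul (h1 π) _ (by positivity) zero_le_one
            apply Real.rpow_le_rpow_of_exponent_le (by linarith)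
            linarith
        _ = ((N π : ℝ)⁻¹) ^ k := by
            rw [one_mul, Real.rpow_neg (by linarith), Real.rpow_natCast, inv_pow]
        _ ≤ (1 / 2 : ℝ) ^ k := by
            apply pow_le_pow_left₀ (by positivity)
            rw [one_div]
            exact inv_anti₀ (by norm_num) h2
    have h5 := ((tendsto_const_nhds (x := (1 : ℂ)) (f := atTop (α := ℕ))).sub h4).norm
    simpa using h5
  rw [Finset.prod_const_one] at h3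
  refine h3.congr fun k => ?_
  unfold HQ
  rw [norm_prod]

lemma HQ_left (hN : NS N n) {Q : ℕ} (hQ : Q ≠ 0) {χ : M →*₀ ℂ} (h1 : ∀ a, χ a ≠ 0 → ‖χ a‖ = 1) :
    Tendsto (fun k : ℕ => ‖HQ N Q χ (sl k)‖ / DQ N Q χ ^ ((k : ℝ) - 1 / 2)) atTop (𝓝 1) := by
  have h3 : Tendsto (fun k : ℕ => ∏ π ∈ SQ N Q, (‖1 - χ π * ((N π : ℕ) : ℂ) ^ (-sl k)‖ /
      dN N χ π ^ ((k : ℝ) - 1 / 2))) atTop (𝓝 (∏ π ∈ SQ N Q, (1 : ℝ))) := by
    refine tendsto_finsetProd _ fun π hπ => ?_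
    have hp := ((mem_SQ hN hQ).mp hπ).1
    by_cases h0 : χ π = 0
    · have e1 : dN N χ π = 1 := by
        unfold dN
        rw [if_pos h0]
      simp only [h0, e1, zero_mul, sub_zero, norm_one, Real.one_rpow, div_one]
      exact tendsto_const_nhds
    · have e1 : dN N χ π = N π := by
        unfold dN
        rw [if_neg h0]
      rw [e1]
      have h2 : (2 : ℝ) ≤ N π := by exact_mod_cast hN.two_le hp
      have hk : ∀ k : ℕ, ‖χ π * ((N π : ℕ) : ℂ) ^ (-sl k)‖ = (N π : ℝ) ^ ((k : ℝ) - 1 / 2) := by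
        intro k
        rw [norm_mul, Complex.norm_natCast_cpow_of_pos (hN.pos hp.ne_zero), h1 π h0, one_mul]
        congr 1
        unfold sl
        simp
      have hpos : ∀ k : ℕ, 0 < (N π : ℝ) ^ ((k : ℝ) - 1 / 2) := fun k =>
        Real.rpow_pos_of_pos (by linarith) _
      have h4 : Tendsto (fun k : ℕ => ((N π : ℝ) ^ ((k : ℝ) - 1 / 2))⁻¹) atTop (𝓝 0) := by
        refine squeeze_zero (fun k => (inv_pos.mpr (hpos k)).le)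
          (g := fun k : ℕ => (N π : ℝ) ^ (1 / 2 : ℝ) * (1 / 2 : ℝ) ^ k) (fun k => ?_) ?_
        · rw [← Real.rpow_neg (by linarith), neg_sub, Real.rpow_sub (by linarith),
            Real.rpow_natCast, div_eq_mul_inv, ← inv_pow]
          apply mul_le_mul_of_nonneg_left _ (by positivity)
          apply pow_le_pow_left₀ (by positivity)
          rw [one_div]
          exact inv_anti₀ (by norm_num) h2
        · have := (tendsto_pow_atTop_nhds_zero_of_lt_one (r := (1 / 2 : ℝ)) (by norm_num)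
            (by norm_num)).const_mul ((N π : ℝ) ^ (1 / 2 : ℝ))
          simpa using this
      rw [tendsto_iff_norm_sub_tendsto_zero]
      refine squeeze_zero (fun k => norm_nonneg _) (fun k => ?_) h4
      have h5 := hpos k
      rw [Real.norm_eq_abs]
      have h6 : ‖1 - χ π * ((N π : ℕ) : ℂ) ^ (-sl k)‖ / (N π : ℝ) ^ ((k : ℝ) - 1 / 2) - 1 =
          (‖1 - χ π * ((N π : ℕ) : ℂ) ^ (-sl k)‖ - (N π : ℝ) ^ ((k : ℝ) - 1 / 2)) *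
            ((N π : ℝ) ^ ((k : ℝ) - 1 / 2))⁻¹ := by
        field_simp
      rw [h6, abs_mul, abs_of_pos (inv_pos.mpr h5)]
      have h7 : |‖1 - χ π * ((N π : ℕ) : ℂ) ^ (-sl k)‖ - (N π : ℝ) ^ ((k : ℝ) - 1 / 2)| ≤ 1 := by
        have h8 := abs_norm_sub_norm_le (1 - χ π * ((N π : ℕ) : ℂ) ^ (-sl k))
          (-(χ π * ((N π : ℕ) : ℂ) ^ (-sl k)))
        rw [norm_neg, hk k] at h8
        refine h8.trans ?_
        have e2 : 1 - χ π * ((N π : ℕ) : ℂ) ^ (-sl k) - -(χ π * ((N π : ℕ) : ℂ) ^ (-sl k)) = 1 := by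
          ring
        rw [e2, norm_one]
      calc _ ≤ 1 * ((N π : ℝ) ^ ((k : ℝ) - 1 / 2))⁻¹ :=
            mul_le_mul_of_nonneg_right h7 (inv_pos.mpr h5).le
        _ = _ := one_mul _
  rw [Finset.prod_const_one] at h3
  refine h3.congr fun k => ?_
  unfold HQ DQ
  rw [norm_prod, Finset.prod_div_distrib]
  congr 1
  exact Real.finsetProd_rpow _ _ (fun π hπ => (dN_pos hN χ ((mem_SQ hN hQ).mp hπ).1).le) _

end one

section two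

variable {M₁ : Type} [CommMonoidWithZero M₁] [NormalizationMonoid M₁]
  [UniqueFactorizationMonoid M₁] [Subsingleton M₁ˣ] [Nontrivial M₁] {N₁ : M₁ →*₀ ℕ} {n₁ : ℕ}
  {M₂ : Type} [CommMonoidWithZero M₂] [NormalizationMonoid M₂]
  [UniqueFactorizationMonoid M₂] [Subsingleton M₂ˣ] [Nontrivial M₂] {N₂ : M₂ →*₀ ℕ} {n₂ : ℕ}
  {ι₁ ι₂ : Type} [Fintype ι₁] [Fintype ι₂]
  {χ₁ : M₁ →*₀ ℂ} {χ₂ : M₂ →*₀ ℂ} {F₁ F₂ : ℂ → ℂ} {R₁ R₂ : ℝ} {e₁ : ι₁ → ℕ} {e₂ : ι₂ → ℕ}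
  {w₁ w₂ : ℂ}

/-- **the conductors agree** -/
theorem cond_eq (hN₁ : NS N₁ n₁) (hN₂ : NS N₂ n₂) (h₁ : HU N₁ χ₁ F₁ R₁ e₁ w₁)
    (h₂ : HU N₂ χ₂ F₂ R₂ e₂ w₂) (o₁ : ∀ a, χ₁ a ≠ 0 → ‖χ₁ a‖ = 1)
    (o₂ : ∀ a, χ₂ a ≠ 0 → ‖χ₂ a‖ = 1)
    (hcard : Fintype.card ι₁ = Fintype.card ι₂) {Q : ℕ} (hQ : Q ≠ 0)
    (h : ∀ s : ℂ, 0 < s.im → HQ N₂ Q χ₂ s * F₂ s = HQ N₁ Q χ₁ s * F₁ s) : R₁ = R₂ := by
  have hR₁ := h₁.hR
  have hR₂ := h₂.hR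
  have hD₁ := DQ_pos hN₁ hQ χ₁
  have hD₂ := DQ_pos hN₂ hQ χ₂
  have a₁ := XF_tendsto h₁.hR e₁ h₁.he h₁.hw
  have a₂ := XF_tendsto h₂.hR e₂ h₂.he h₂.hw
  have b₁ := HQ_right hN₁ hQ h₁.le1
  have b₂ := HQ_right hN₂ hQ h₂.le1
  have c₁ := HQ_left hN₁ hQ o₁
  have c₂ := HQ_left hN₂ hQ o₂
  have hlim := ((a₁.mul b₁).mul c₂).div ((a₂.mul b₂).mul c₁) (by norm_num)
  have e0 : (1 : ℝ) * 1 * 1 / (1 * 1 * 1) = 1 := by norm_num
  rw [e0] at hlim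
  have hev : ∀ᶠ k : ℕ in atTop,
      (((fun k : ℕ => ‖XF R₁ e₁ w₁ (sk k)‖ * R₁ ^ k /
        (‖Gammaℝ (1 - sk k)‖ / ‖Gammaℝ (sk k)‖) ^ Fintype.card ι₁ * ‖HQ N₁ Q χ₁ (sk k)‖ *
        (‖HQ N₂ Q χ₂ (sl k)‖ / DQ N₂ Q χ₂ ^ ((k : ℝ) - 1 / 2))) /
      (fun k : ℕ => ‖XF R₂ e₂ w₂ (sk k)‖ * R₂ ^ k /
        (‖Gammaℝ (1 - sk k)‖ / ‖Gammaℝ (sk k)‖) ^ Fintype.card ι₂ * ‖HQ N₂ Q χ₂ (sk k)‖ *
        (‖HQ N₁ Q χ₁ (sl k)‖ / DQ N₁ Q χ₁ ^ ((k : ℝ) - 1 / 2))) : ℕ → ℝ) k =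
      ((R₁ * DQ N₁ Q χ₁) / (R₂ * DQ N₂ Q χ₂)) ^ k *
        (DQ N₂ Q χ₂ / DQ N₁ Q χ₁) ^ (1 / 2 : ℝ)) := by
    have hb₂ : ∀ᶠ k : ℕ in atTop, (1 / 2 : ℝ) < ‖HQ N₂ Q χ₂ (sk k)‖ :=
      b₂.eventually_const_lt (by norm_num)
    have hb₁ : ∀ᶠ k : ℕ in atTop, (1 / 2 : ℝ) < ‖HQ N₁ Q χ₁ (sk k)‖ :=
      b₁.eventually_const_lt (by norm_num)
    have hc₁ : ∀ᶠ k : ℕ in atTop, (1 / 2 : ℝ) <
        ‖HQ N₁ Q χ₁ (sl k)‖ / DQ N₁ Q χ₁ ^ ((k : ℝ) - 1 / 2) :=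
      c₁.eventually_const_lt (by norm_num)
    filter_upwards [eventually_ge_atTop 1, hb₂, hb₁, hc₁] with k hk hk2 hk1 hk3
    have hk' : (1 : ℝ) ≤ k := by exact_mod_cast hk
    have him : 0 < (sk k).im := by
      show (0 : ℝ) < k
      linarith
    have him' : 0 < (sl k).im := by
      show (0 : ℝ) < k
      linarith
    have hre : 1 ≤ (sk k).re := by
      show (1 : ℝ) ≤ 1 / 2 + k
      linarith
    have f₁ := h₁.nz _ hre him.ne'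
    have f₂ := h₂.nz _ hre him.ne'
    have g₁ := h₁.fe _ him.ne'
    have g₂ := h₂.fe _ him.ne'
    rw [sk_sl] at g₁ g₂
    have i1 := congrArg norm (h _ him)
    have i2 := congrArg norm (h _ him')
    have n₁ := congrArg norm g₁
    have n₂ := congrArg norm g₂
    rw [norm_mul, Complex.norm_conj] at n₁ n₂
    rw [norm_mul, norm_mul] at i1 i2
    rw [n₁, n₂] at i1
    have p₂ : 0 < ‖F₂ (sl k)‖ := by
      apply norm_pos_iff.mpr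
      intro h0
      apply f₂
      rw [g₂, h0, map_zero, mul_zero]
    have x₂ : 0 < ‖XF R₂ e₂ w₂ (sk k)‖ := norm_pos_iff.mpr (XF_ne_zero h₂.hR e₂ h₂.hw him.ne')
    have y₁ : 0 < ‖HQ N₁ Q χ₁ (sl k)‖ := by
      by_contra hcon
      have h0 : ‖HQ N₁ Q χ₁ (sl k)‖ = 0 := le_antisymm (not_lt.mp hcon) (norm_nonneg _)
      rw [h0, zero_div] at hk3
      linarith
    have y₂ : 0 < ‖HQ N₂ Q χ₂ (sk k)‖ := by linarith
    have main : ‖XF R₁ e₁ w₁ (sk k)‖ * ‖HQ N₁ Q χ₁ (sk k)‖ * ‖HQ N₂ Q χ₂ (sl k)‖ =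
        ‖XF R₂ e₂ w₂ (sk k)‖ * ‖HQ N₂ Q χ₂ (sk k)‖ * ‖HQ N₁ Q χ₁ (sl k)‖ := by
      apply mul_right_cancel₀ p₂.ne'
      calc ‖XF R₁ e₁ w₁ (sk k)‖ * ‖HQ N₁ Q χ₁ (sk k)‖ * ‖HQ N₂ Q χ₂ (sl k)‖ * ‖F₂ (sl k)‖ =
          ‖XF R₁ e₁ w₁ (sk k)‖ * ‖HQ N₁ Q χ₁ (sk k)‖ *
            (‖HQ N₂ Q χ₂ (sl k)‖ * ‖F₂ (sl k)‖) := by ring
        _ = (‖HQ N₁ Q χ₁ (sk k)‖ * (‖XF R₁ e₁ w₁ (sk k)‖ * ‖F₁ (sl k)‖)) *
            ‖HQ N₁ Q χ₁ (sl k)‖ := by rw [i2]; ring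
        _ = _ := by rw [← i1]; ring
    have gp : 0 < ‖Gammaℝ (1 - sk k)‖ / ‖Gammaℝ (sk k)‖ := by
      have g1 : Gammaℝ (sk k) ≠ 0 := H370.DL.Gammaℝ_ne_zero_of_im him.ne'
      have g3 : Gammaℝ (1 - sk k) ≠ 0 := H370.DL.Gammaℝ_ne_zero_of_im (by simpa using him.ne')
      have p1 := norm_pos_iff.mpr g1
      have p3 := norm_pos_iff.mpr g3
      positivity
    have r1 : DQ N₁ Q χ₁ ^ ((k : ℝ) - 1 / 2) =
        DQ N₁ Q χ₁ ^ k / DQ N₁ Q χ₁ ^ (1 / 2 : ℝ) := by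
      rw [Real.rpow_sub hD₁, Real.rpow_natCast]
    have r2 : DQ N₂ Q χ₂ ^ ((k : ℝ) - 1 / 2) =
        DQ N₂ Q χ₂ ^ k / DQ N₂ Q χ₂ ^ (1 / 2 : ℝ) := by
      rw [Real.rpow_sub hD₂, Real.rpow_natCast]
    rw [Pi.div_apply, hcard, r1, r2, Real.div_rpow hD₂.le hD₁.le]
    have q1 : 0 < DQ N₁ Q χ₁ ^ (1 / 2 : ℝ) := Real.rpow_pos_of_pos hD₁ _
    have q2 : 0 < DQ N₂ Q χ₂ ^ (1 / 2 : ℝ) := Real.rpow_pos_of_pos hD₂ _
    generalize (‖Gammaℝ (1 - sk k)‖ / ‖Gammaℝ (sk k)‖) = G at gp ⊢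
    generalize DQ N₁ Q χ₁ ^ (1 / 2 : ℝ) = q₁ at q1 ⊢
    generalize DQ N₂ Q χ₂ ^ (1 / 2 : ℝ) = q₂ at q2 ⊢
    rw [div_pow, mul_pow, mul_pow, div_eq_iff (by positivity)]
    field_simp
    linear_combination main
  have hlim2 := (hlim.congr' hev)
  obtain ⟨hu, hv⟩ := geo_one hlim2
  have hD : DQ N₂ Q χ₂ = DQ N₁ Q χ₁ := by
    have h5 : 0 < DQ N₂ Q χ₂ / DQ N₁ Q χ₁ := by positivity
    have h6 : (DQ N₂ Q χ₂ / DQ N₁ Q χ₁) = 1 := by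
      have h7 := congrArg Real.log hv
      rw [Real.log_rpow h5, Real.log_one] at h7
      have h8 : Real.log (DQ N₂ Q χ₂ / DQ N₁ Q χ₁) = 0 := by linarith
      exact Real.eq_one_of_pos_of_log_eq_zero h5 h8
    exact (div_eq_one_iff_eq hD₁.ne').mp h6
  rw [hD, mul_div_mul_right _ _ hD₁.ne'] at hu
  exact (div_eq_one_iff_eq hR₂.ne').mp hu

end two

end Pool.Agent.T9h53.EQ
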