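import Pool.Agent.T9h53.EQ.Core

/-! # The choice of the parameters -/

set_option autoImplicit false

open Complex Filter Topology Set MeasureTheory

namespace Pool.Agent.T9h53.EQ

open Pool.Agent.T9h53.SZ

lemma ed_le {b ℓ : ℝ} (hb : 0 < b) (hℓ : 1 ≤ ℓ) :
    ed b (3 * b * Real.log ℓ) ≤ Real.exp (-(ℓ ^ 3 / 4)) := by
  unfold ed
  apply Real.exp_le_exp.mpr
  have h1 : b⁻¹ * (3 * b * Real.log ℓ) = Real.log (ℓ ^ 3) := by
    rw [Real.log_pow]
    field_simp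
    push_cast
    ring
  have hℓ0 : 0 < ℓ ^ 3 := by positivity
  rw [h1, Real.cosh_eq, Real.exp_log hℓ0]
  have := Real.exp_pos (-Real.log (ℓ ^ 3))
  linarith

lemma ed_small {b : ℝ} (hb : 0 < b) {ε : ℝ} (hε : 0 < ε) :
    ∀ᶠ ℓ : ℝ in atTop, ed b (3 * b * Real.log ℓ) ≤ ε ∧
      Real.exp (ℓ ^ 2) * ed b (3 * b * Real.log ℓ) ≤ ε := by
  have htend : Tendsto (fun x : ℝ => Real.exp (x ^ 2 - x ^ 3 / 4)) atTop (𝓝 0) := by
    apply Real.tendsto_exp_atBot.comp
    have : (fun x : ℝ => x ^ 2 - x ^ 3 / 4) = fun x : ℝ => x ^ 2 * (1 + -(x / 4)) := by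
      funext x; ring
    rw [this]
    refine (tendsto_pow_atTop (by norm_num)).atTop_mul_atBot₀ ?_
    apply tendsto_atBot_add_const_left
    exact tendsto_neg_atTop_atBot.comp (tendsto_id.atTop_div_const (by norm_num))
  filter_upwards [htend.eventually (Iic_mem_nhds hε), eventually_ge_atTop 1] with ℓ h1 h2
  have h3 := ed_le hb h2
  have h4 : Real.exp (ℓ ^ 2) * ed b (3 * b * Real.log ℓ) ≤ ε := by
    refine le_trans ?_ h1
    rw [sub_eq_add_neg, Real.exp_add]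
    gcongr
  have h5 : (1 : ℝ) ≤ Real.exp (ℓ ^ 2) := Real.one_le_exp (by positivity)
  have h6 := ed_pos b (3 * b * Real.log ℓ)
  exact ⟨by nlinarith, h4⟩

theorem params (w S0 C κ lam E : ℝ) (hw : 0 < w) (hS : 0 ≤ S0) (hC : 0 ≤ C) (hκ : 0 < κ) :
    ∃ b : ℝ, 1 ≤ b ∧ ∀ᶠ ℓ : ℝ in atTop, b ≤ 3 * b * Real.log ℓ ∧
      S0 * (Real.exp lam * ta b (3 * b * Real.log ℓ) κ) +
      S0 * (C * Real.exp E * Real.exp (-lam) * ta b (3 * b * Real.log ℓ) κ) +
      4 * ((1 + C * Real.exp |E|) * Real.exp (ℓ ^ 2) * Real.exp |lam| *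
        ed b (3 * b * Real.log ℓ)) <
      w * (2 * b * Real.exp (-2) - 2 * ed b (3 * b * Real.log ℓ)) := by
  set K : ℝ := S0 * Real.exp lam + S0 * (C * Real.exp E * Real.exp (-lam)) with hK
  have hK0 : 0 ≤ K := by positivity
  set Q : ℝ := (1 + C * Real.exp |E|) * Real.exp |lam| with hQ
  have hQ0 : 0 ≤ Q := by positivity
  have he2 : 0 < Real.exp (-2) := Real.exp_pos _
  have hwe : 0 < w * Real.exp (-2) := by positivity
  have ht : Tendsto (fun b : ℝ => K * 6 * Real.exp (-((b - 1) * κ))) atTop (𝓝 (K * 6 * 0)) := by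
    apply Tendsto.const_mul
    apply Real.tendsto_exp_atBot.comp
    apply tendsto_neg_atTop_atBot.comp
    exact (tendsto_atTop_add_const_right _ _ tendsto_id).atTop_mul_const hκ
  rw [mul_zero] at ht
  obtain ⟨b, hb1, hb2⟩ := ((ht.eventually (Iio_mem_nhds hwe)).and (eventually_ge_atTop 1)).exists
  have hb1' : K * 6 * Real.exp (-((b - 1) * κ)) < w * Real.exp (-2) := hb1
  have hb0 : 0 < b := by linarith
  refine ⟨b, hb2, ?_⟩
  set R : ℝ := 4 * b * K + 4 * Q + 2 * w with hR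
  have hR0 : 0 < R := by positivity
  set ε : ℝ := b * (w * Real.exp (-2)) / R with hε
  have hε0 : 0 < ε := by positivity
  have hεR : ε * R = b * (w * Real.exp (-2)) := by
    rw [hε]
    field_simp
  filter_upwards [ed_small hb0 hε0, eventually_ge_atTop (Real.exp 1)] with ℓ h1 h2
  obtain ⟨h3, h4⟩ := h1
  have hℓ : 0 < ℓ := (Real.exp_pos 1).trans_le h2
  have hlog : 1 ≤ Real.log ℓ := by rwa [Real.le_log_iff_exp_le hℓ]
  refine ⟨by nlinarith, ?_⟩
  set e := ed b (3 * b * Real.log ℓ) with he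
  have he0 : 0 < e := ed_pos _ _
  unfold ta
  rw [← he]
  have e1 : S0 * (Real.exp lam * (6 * b * Real.exp (-((b - 1) * κ)) + 4 * b * e)) +
      S0 * (C * Real.exp E * Real.exp (-lam) *
        (6 * b * Real.exp (-((b - 1) * κ)) + 4 * b * e)) +
      4 * ((1 + C * Real.exp |E|) * Real.exp (ℓ ^ 2) * Real.exp |lam| * e) =
      b * (K * 6 * Real.exp (-((b - 1) * κ))) + 4 * b * K * e + 4 * Q * (Real.exp (ℓ ^ 2) * e) := by
    rw [hK, hQ]
    ring
  rw [e1]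
  have e2 : b * (K * 6 * Real.exp (-((b - 1) * κ))) < b * (w * Real.exp (-2)) :=
    mul_lt_mul_of_pos_left hb1' hb0
  have e3 : 4 * b * K * e ≤ 4 * b * K * ε := by gcongr
  have e4 : 4 * Q * (Real.exp (ℓ ^ 2) * e) ≤ 4 * Q * ε := by gcongr
  have e5 : 2 * w * e ≤ 2 * w * ε := by gcongr
  have e6 : ε * R = 4 * b * K * ε + 4 * Q * ε + 2 * w * ε := by
    rw [hR]
    ring
  nlinarith

end Pool.Agent.T9h53.EQ
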