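import Pool.Agent.T9h53.EQ.Par
import Pool.Agent.T9h53.AP.QU

/-! # Exceptional zeros in every short interval: quotients of degree zero -/

set_option autoImplicit false
set_option linter.unusedSectionVars false

open Complex Filter Topology Set MeasureTheory

namespace Pool.Agent.T9h53.EQ

open Pool.Agent.T9h53.SZ Pool.Agent.T9h53.SG Pool.Agent.T9h53.AP
open Pool.Agent.T9h27.D

variable {M₁ : Type} [CommMonoidWithZero M₁] [NormalizationMonoid M₁]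
  [UniqueFactorizationMonoid M₁] [Subsingleton M₁ˣ] [Nontrivial M₁] {N₁ : M₁ →*₀ ℕ} {n₁ : ℕ}
  {M₂ : Type} [CommMonoidWithZero M₂] [NormalizationMonoid M₂]
  [UniqueFactorizationMonoid M₂] [Subsingleton M₂ˣ] [Nontrivial M₂] {N₂ : M₂ →*₀ ℕ} {n₂ : ℕ}
  {ι₁ ι₂ : Type} [Fintype ι₁] [Fintype ι₂]
  {χ₁ : M₁ →*₀ ℂ} {χ₂ : M₂ →*₀ ℂ} {F₁ F₂ : ℂ → ℂ} {R₁ R₂ : ℝ} {e₁ : ι₁ → ℕ} {e₂ : ι₂ → ℕ}
  {w₁ w₂ : ℂ}

open Classical in
/-- the pairs with the frequency `lam` -/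
noncomputable def FB (N₁ : M₁ →*₀ ℕ) (N₂ : M₂ →*₀ ℕ) (α β lam : ℝ) : Finset (M₂ × M₁) :=
  (UA N₁ N₂ α β (Real.exp (lam + 1))).filter (fun p => nq N₁ N₂ α β p = lam)

lemma nq_nonneg (hN₁ : NS N₁ n₁) (hN₂ : NS N₂ n₂) {α β : ℝ} (hα : 0 ≤ α) (hβ : 0 ≤ β)
    {p : M₂ × M₁} (h1 : p.1 ≠ 0) (h2 : p.2 ≠ 0) : 0 ≤ nq N₁ N₂ α β p := by
  have k1 : (1 : ℝ) ≤ N₂ p.1 := by exact_mod_cast hN₂.pos h1
  have k2 : (1 : ℝ) ≤ N₁ p.2 := by exact_mod_cast hN₁.pos h2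
  have l1 := Real.log_nonneg k1
  have l2 := Real.log_nonneg k2
  unfold nq
  positivity

theorem gap_exists (hN₁ : NS N₁ n₁) (hN₂ : NS N₂ n₂) {α β : ℝ} (hα : 1 ≤ α) (hβ : 1 ≤ β) (δ : ℝ)
    {lam : ℝ} (hlam : 0 ≤ lam) : ∃ κ : ℝ, 0 < κ ∧ ∀ p ∉ FB N₁ N₂ α β lam,
      cq N₁ N₂ χ₁ χ₂ δ p ≠ 0 → κ ≤ |lam - nq N₁ N₂ α β p| := by
  classical
  set U := UA N₁ N₂ α β (Real.exp (lam + 1)) with hU
  have hX : 1 ≤ Real.exp (lam + 1) := Real.one_le_exp (by linarith)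
  set V := U.filter (fun p => nq N₁ N₂ α β p ≠ lam) with hV
  obtain ⟨κ, hκ, hκV⟩ : ∃ κ : ℝ, 0 < κ ∧ ∀ p ∈ V, κ ≤ |lam - nq N₁ N₂ α β p| := by
    rcases V.eq_empty_or_nonempty with h | h
    · exact ⟨1, one_pos, fun p hp => by rw [h] at hp; simp at hp⟩
    · obtain ⟨p₀, hp₀, hmin⟩ := V.exists_min_image (fun p => |lam - nq N₁ N₂ α β p|) h
      refine ⟨|lam - nq N₁ N₂ α β p₀|, ?_, hmin⟩
      rw [abs_pos, sub_ne_zero]
      rw [hV, Finset.mem_filter] at hp₀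
      exact hp₀.2.symm
  refine ⟨min κ 1, lt_min hκ one_pos, fun p hp hc => ?_⟩
  obtain ⟨h1, h2⟩ := cq_zero δ hc
  by_cases hpU : p ∈ U
  · have hne : nq N₁ N₂ α β p ≠ lam := by
      intro h
      apply hp
      unfold FB
      rw [Finset.mem_filter]
      exact ⟨hpU, h⟩
    exact (min_le_left _ _).trans (hκV p (by rw [hV, Finset.mem_filter]; exact ⟨hpU, hne⟩))
  · have h3 : Real.log (Real.exp (lam + 1)) < nq N₁ N₂ α β p := by
      by_contra h0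
      push Not at h0
      exact hpU ((mem_UA hN₁ hN₂ hα hβ hX).mpr ⟨h1, h2, h0⟩)
    rw [Real.log_exp] at h3
    refine (min_le_right _ _).trans ?_
    rw [abs_sub_comm]
    refine le_trans ?_ (le_abs_self _)
    linarith

open Classical in
/-- **exceptional zeros near every height** -/
theorem win_eq (hN₁ : NS N₁ n₁) (hN₂ : NS N₂ n₂) (h₁ : HU N₁ χ₁ F₁ R₁ e₁ w₁)
    (h₂ : HU N₂ χ₂ F₂ R₂ e₂ w₂) {α β : ℝ} (δ : ℝ) (hα : 1 ≤ α) (hβ : 1 ≤ β)
    (hd : dg ι₁ ι₂ α β = 0) {lam : ℝ} (hlam : 0 ≤ lam) (hE : cE ι₁ ι₂ R₁ R₂ α β < lam)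
    (hw : ∑ p ∈ FB N₁ N₂ α β lam, cq N₁ N₂ χ₁ χ₂ δ p ≠ 0) :
    ∃ C t₀ : ℝ, 0 < C ∧ ∀ t : ℝ, t₀ ≤ t →
      ∃ z ∈ ExcZ F₁ F₂ α β δ, |z.im - t| < C * Real.log (Real.log t) := by
  haveI := NS_countable hN₁
  haveI := NS_countable hN₂
  have hα0 : 0 < α := by linarith
  have hβ0 : 0 < β := by linarith
  set E := cE ι₁ ι₂ R₁ R₂ α β with hEdef
  obtain ⟨κ₀, hκ₀, hgap⟩ := gap_exists (χ₁ := χ₁) (χ₂ := χ₂) hN₁ hN₂ hα hβ δ hlam
  set κ := min κ₀ (lam - E) with hκdef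
  have hκ : 0 < κ := lt_min hκ₀ (by linarith)
  obtain ⟨C1, t1, hC1, ht1, hsize⟩ := GQ_size h₁.hR h₂.hR e₁ e₂ h₁.he h₂.he h₁.hw h₂.hw δ hα hβ
  obtain ⟨T2, hT2, hBox⟩ := box_boundU (F₁ := F₁) (F₂ := F₂) h₁.an
    (growth_left h₁.hR e₁ h₁.he h₁.hw h₁.fe h₁.gr)
    (growth_left h₂.hR e₂ h₂.he h₂.hw h₂.fe h₂.gr)
    ⟨(ZN N₁ + 1)⁻¹, inv_pos.mpr (by have := ZN_nonneg N₁; linarith), fun s hs => by
      rw [h₁.ser s hs]
      exact LA_low' hN₁ h₁.le1 hs⟩ δ hα hβ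
  obtain ⟨hsum, hsum2⟩ := cq_summable hN₁ hN₂ h₁.le1 h₂.le1 δ hα hβ
  have hZ0 : 0 ≤ ZN N₂ * ZN N₁ := mul_nonneg (ZN_nonneg N₂) (ZN_nonneg N₁)
  obtain ⟨b, hb, hpar⟩ := params ‖∑ p ∈ FB N₁ N₂ α β lam, cq N₁ N₂ χ₁ χ₂ δ p‖
    (ZN N₂ * ZN N₁) (Real.exp C1) κ lam E (norm_pos_iff.mpr hw) hZ0 (Real.exp_pos _).le hκ
  have hb0 : 0 < b := by linarith
  -- eventually
  have ev1 := Real.tendsto_log_atTop.eventually hpar
  have hll : Tendsto (fun t : ℝ => Real.log (Real.log t)) atTop atTop :=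
    Real.tendsto_log_atTop.comp Real.tendsto_log_atTop
  have ev2 : ∀ᶠ t : ℝ in atTop, (3 * b) * Real.log (Real.log t) + 3 ≤ t / 2 := by
    have h1 : ∀ᶠ t : ℝ in atTop, Real.log t ≤ t / (6 * b + 1) / 2 := by
      have := (Real.isLittleO_log_id_atTop).bound
        (show (0 : ℝ) < 1 / (6 * b + 1) / 2 by positivity)
      filter_upwards [this, eventually_ge_atTop 1] with t h1 h2
      rw [Real.norm_eq_abs, Real.norm_eq_abs, id_eq, abs_of_nonneg (Real.log_nonneg h2),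
        abs_of_pos (by linarith : (0 : ℝ) < t)] at h1
      calc Real.log t ≤ 1 / (6 * b + 1) / 2 * t := h1
        _ = _ := by ring
    filter_upwards [h1, eventually_ge_atTop 12, hll.eventually_ge_atTop 0,
      Real.tendsto_log_atTop.eventually_ge_atTop 1] with t h2 h3 h4 h5
    have h6 : Real.log (Real.log t) ≤ Real.log t := by
      have := Real.log_le_sub_one_of_pos (show 0 < Real.log t by linarith)
      linarith
    have h7 : (6 * b + 1) * Real.log t ≤ t / 2 := by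
      calc (6 * b + 1) * Real.log t ≤ (6 * b + 1) * (t / (6 * b + 1) / 2) := by gcongr
        _ = t / 2 := by field_simp
    nlinarith
  obtain ⟨t₀, ht₀⟩ := eventually_atTop.mp (ev1.and (ev2.and ((eventually_ge_atTop
    (2 * T2)).and ((eventually_ge_atTop (2 * (t1 + (b + 2) ^ 2 + 2 * |δ| + 2))).and
      (hll.eventually_ge_atTop 1)))))
  refine ⟨3 * b + 3, t₀, by positivity, ?_⟩
  intro t ht
  obtain ⟨⟨hY1, hcontra⟩, g2, g3, g4, g5⟩ := ht₀ t ht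
  by_contra hno
  push Not at hno
  set ℓ := Real.log t with hℓ
  set Y := 3 * b * Real.log ℓ with hYdef
  have hY0 : 0 ≤ Y := by linarith
  have hW : Y + 3 ≤ (3 * b + 3) * Real.log ℓ := by
    rw [hYdef]
    nlinarith
  have hδ := abs_nonneg δ
  have hδ1 := neg_abs_le δ
  have hb2 : 0 ≤ (b + 2) ^ 2 := sq_nonneg _
  have ht0 : 0 < t := by linarith
  have hpos : ∀ y : ℝ, |y - t| < Y + 3 → t / 2 < y := by
    intro y hy
    have := (abs_lt.mp hy).1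
    linarith
  have hpos2 : ∀ y : ℝ, |y - t| < Y + 3 → 0 < y ∧ 0 < δ + α * y := by
    intro y hy
    have h3 := hpos y hy
    exact ⟨by linarith, by nlinarith⟩
  obtain ⟨D, hDa, hDL⟩ := exists_DU h₁ h₂ δ hα0 hβ0 (t := t) (W := Y + 3) hpos2
    (fun z hz => hW.trans (hno z hz))
  set U : Set ℂ := {z : ℂ | |z.im - t| < Y + 3} with hU
  have hUo : IsOpen U := by
    have : Continuous fun z : ℂ => |z.im - t| := by fun_prop
    exact isOpen_lt this continuous_const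
  have hin : ∀ z : ℂ, |z.im - t| ≤ Y → z ∈ U := by
    intro z hz
    rw [hU, mem_ofPred_eq]
    linarith
  have hfe := D_feU h₁ h₂ α δ hβ0 D hUo (fun z hz => hpos2 _ hz) (fun z hz => by
      have : (-(starRingEnd ℂ) z).im = z.im := by simp
      rw [hU, mem_ofPred_eq, this]
      exact hz) (fun z hz => hDa z hz) (fun z hz => hDL z hz)
  have hA : Amp (GQ R₁ e₁ w₁ R₂ e₂ w₂ α β δ) (Real.exp C1) E b Y t := by
    constructor
    · intro z hz1 hz2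
      obtain ⟨p1, p2⟩ := hpos2 z.im (by linarith)
      exact (GQ_analytic h₁.hR h₂.hR e₁ e₂ h₁.hw α β δ (mul_pos hβ0 p1).ne' p2.ne').differentiableAt
    · intro σ v hσ hv
      have hv' : |t + v - t| < Y + 3 := by
        rw [add_sub_cancel_left]
        linarith
      have q1 := hpos (t + v) hv'
      obtain ⟨q2, q3⟩ := hpos2 (t + v) hv'
      have h6 := hsize (t + v) (b + 2) (by linarith) (by linarith) (by linarith) σ (by linarith)
      have hEn : En ι₁ ι₂ R₁ R₂ α β (t + v) = E := by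
        unfold En
        rw [hd, zero_mul, zero_add]
      rw [hEn] at h6
      have hG : 0 < ‖GQ R₁ e₁ w₁ R₂ e₂ w₂ α β δ ⟨σ, t + v⟩‖ := by
        apply norm_pos_iff.mpr
        unfold GQ
        apply div_ne_zero
        · exact XF_ne_zero h₂.hR e₂ h₂.hw (by rw [im2]; exact q3.ne')
        · refine XF_ne_zero h₁.hR e₁ h₁.hw ?_
          rw [im1]
          exact (mul_pos hβ0 q2).ne'
      rw [← Real.exp_log hG, ← Real.exp_add]
      apply Real.exp_le_exp.mpr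
      have := (abs_le.mp h6).2
      linarith
  have hcore := core_eq (FB N₁ N₂ α β lam) (c := cq N₁ N₂ χ₁ χ₂ δ) (ν := nq N₁ N₂ α β)
    (G := GQ R₁ e₁ w₁ R₂ e₂ w₂ α β δ) (D := D) (C := Real.exp C1) (E := E) (lam := lam) (κ := κ)
    (S0 := ZN N₂ * ZN N₁) (M := Real.exp (ℓ ^ 2)) hb hY1 (Real.exp_pos _).le hκ.le
    (Real.exp_pos _).le hsum hsum2 (fun p hp => by
      unfold FB at hp
      exact (Finset.mem_filter.mp hp).2) (fun p hp hc => (min_le_left _ _).trans (hgap p hp hc))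
    (fun p hc => by
      obtain ⟨c1, c2⟩ := cq_zero δ hc
      have h3 := nq_nonneg hN₁ hN₂ hα0.le hβ0.le c1 c2
      have h4 : κ ≤ lam - E := min_le_right _ _
      linarith) hA
    (fun z hz => (hDa z (hin z hz)).differentiableAt)
    (fun z hz => hfe z (hin z hz)) (by
      intro v hv
      have hz : (⟨1, t + v⟩ : ℂ) ∈ U := hin _ (by simpa using hv)
      obtain ⟨p1, p2⟩ := hpos2 (t + v) hz
      have hL1 : F₁ (1 / 2 + β * (⟨1, t + v⟩ : ℂ)) ≠ 0 := by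
        apply h₁.nz
        · simp
          linarith
        · rw [im1]
          exact (mul_pos hβ0 p1).ne'
      have e1 : D ⟨1, t + v⟩ = F₂ (1 / 2 + δ * I + α * ⟨1, t + v⟩) /
          F₁ (1 / 2 + β * ⟨1, t + v⟩) := by
        rw [hDL _ hz, mul_div_cancel_right₀ _ hL1]
      rw [e1]
      exact quot_series hN₁ hN₂ h₁.le1 h₂.le1 h₁.ser h₂.ser δ hα hβ rfl) (by
      intro x τ hx0 hx1 hτ
      obtain ⟨k1, k2⟩ := abs_le.mp hτ
      have hin2 : ∀ z : ℂ, |z.im - τ| ≤ 2 → |z.im - t| < Y + 3 := by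
        intro z hz
        calc |z.im - t| ≤ |z.im - τ| + |τ - t| := abs_sub_le _ _ _
          _ < Y + 3 := by linarith
      have e1 := hBox (t / 2) (by linarith) τ (by linarith) (by linarith) D
        (fun z hz => hDa z (hin2 z hz)) (fun z hz => hDL z (hin2 z hz)) x hx0 hx1
      refine e1.trans (Real.exp_le_exp.mpr ?_)
      have e2 : 0 ≤ Real.log (t / 2) := Real.log_nonneg (by linarith)
      have e3 : Real.log (t / 2) ≤ ℓ := Real.log_le_log (by linarith) (by linarith)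
      exact pow_le_pow_left₀ e2 e3 2)
  linarith

end Pool.Agent.T9h53.EQ
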